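import Pool.Agent.H96R3.BC.Stmts

/-! TASK SM of the project BIGCOEF (helper929): the smooth integers. -/

set_option autoImplicit false

open Finset

namespace Pool.Agent.H929R3.BCSM

open Pool.Agent.H96R3.BC

/-- multiples of `d` in an interval -/
theorem count_dvd (a b d : ℕ) (hd : 1 ≤ d) (hdb : d ≤ b - a) :
    (((Ioc a b).filter (fun n => d ∣ n)).card : ℝ) ≤ 2 * ((b - a : ℕ) : ℝ) / d := by
  have hab : a ≤ b := by omega
  have h1 : ((Ioc a b).filter (fun n => d ∣ n)).card + ((Ioc 0 a).filter (fun n => d ∣ n)).card =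
      ((Ioc 0 b).filter (fun n => d ∣ n)).card := by
    rw [← Finset.card_union_of_disjoint, ← Finset.filter_union, Finset.union_comm,
      Finset.Ioc_union_Ioc_eq_Ioc (Nat.zero_le a) hab]
    apply Finset.disjoint_filter_filter
    rw [Finset.disjoint_left]
    intro x hx hx'
    simp only [Finset.mem_Ioc] at hx hx'
    omega
  rw [Nat.Ioc_filter_dvd_card_eq_div, Nat.Ioc_filter_dvd_card_eq_div] at h1
  have hd0 : (0 : ℝ) < d := by exact_mod_cast hd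
  have h2 : (((Ioc a b).filter (fun n => d ∣ n)).card : ℝ) + ((a / d : ℕ) : ℝ) = ((b / d : ℕ) : ℝ) := by
    exact_mod_cast h1
  have h3 : ((b / d : ℕ) : ℝ) ≤ (b : ℝ) / d := Nat.cast_div_le
  have h4 : (a : ℝ) / d < ((a / d : ℕ) : ℝ) + 1 := by
    rw [div_lt_iff₀ hd0]
    have := Nat.lt_div_mul_add (a := a) hd
    have h5 : a < (a / d + 1) * d := by nlinarith
    exact_mod_cast h5
  have h6 : ((b - a : ℕ) : ℝ) = (b : ℝ) - a := by push_cast [Nat.cast_sub hab]; ring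
  have h7 : (d : ℝ) ≤ ((b - a : ℕ) : ℝ) := by exact_mod_cast hdb
  have h8 : (1 : ℝ) ≤ ((b - a : ℕ) : ℝ) / d := by rw [le_div_iff₀ hd0]; linarith
  have h9 : 2 * ((b - a : ℕ) : ℝ) / d = ((b - a : ℕ) : ℝ) / d + ((b - a : ℕ) : ℝ) / d := by ring
  have h10 : ((b - a : ℕ) : ℝ) / d = (b : ℝ) / d - (a : ℝ) / d := by rw [h6]; ring
  linarith

/-- the basic sum over subsets of a set of primes -/
theorem sieve (a b : ℕ) (T P : Finset ℕ) (hT : T ⊆ Ioc a b) (hP : ∀ p ∈ P, p.Prime)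
    (σ : ℕ → Finset ℕ) (hσ : ∀ n ∈ T, σ n ⊆ P) (hdvd : ∀ n ∈ T, ∀ p ∈ σ n, p ∣ n)
    (hsz : ∀ n ∈ T, ∏ p ∈ σ n, p ≤ b - a) (G : ℕ → ℝ) (M h : ℝ) (hM : 0 ≤ M) (hh : 0 ≤ h)
    (hG : ∀ n ∈ T, G n ≤ M * h ^ (σ n).card) :
    ∑ n ∈ T, G n ≤ 2 * M * ((b - a : ℕ) : ℝ) * ∏ p ∈ P, (1 + h / p) := by
  classical
  have h1 : ∑ n ∈ T, G n ≤ ∑ n ∈ T, M * h ^ (σ n).card := Finset.sum_le_sum hG
  refine h1.trans ?_
  rw [← Finset.sum_fiberwise_of_maps_to (s := T) (t := P.powerset) (g := σ)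
    (fun n hn => Finset.mem_powerset.2 (hσ n hn)) (fun n => M * h ^ (σ n).card)]
  rw [Finset.prod_one_add, Finset.mul_sum]
  refine Finset.sum_le_sum fun S hS => ?_
  rw [Finset.mem_powerset] at hS
  have hpr : ∏ p ∈ S, (h / (p : ℝ)) = h ^ S.card / ((∏ p ∈ S, p : ℕ) : ℝ) := by
    rw [Finset.prod_div_distrib, Finset.prod_const]
    push_cast
    rfl
  have hS0 : (0 : ℝ) < ((∏ p ∈ S, p : ℕ) : ℝ) := by
    have : 0 < ∏ p ∈ S, p := Finset.prod_pos fun p hp => (hP p (hS hp)).pos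
    exact_mod_cast this
  have hr : 0 ≤ 2 * M * ((b - a : ℕ) : ℝ) * ∏ p ∈ S, (h / (p : ℝ)) := by
    rw [hpr]; positivity
  have e1 : ∑ n ∈ T.filter (fun n => σ n = S), M * h ^ (σ n).card =
      ((T.filter (fun n => σ n = S)).card : ℝ) * (M * h ^ S.card) := by
    rw [Finset.sum_congr rfl (fun n hn => by rw [(Finset.mem_filter.1 hn).2] :
      ∀ n ∈ T.filter (fun n => σ n = S), M * h ^ (σ n).card = M * h ^ S.card),
      Finset.sum_const, nsmul_eq_mul]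
  rw [e1]
  rcases Finset.eq_empty_or_nonempty (T.filter (fun n => σ n = S)) with h0 | ⟨n, hn⟩
  · rw [h0, Finset.card_empty, Nat.cast_zero, zero_mul]
    exact hr
  · have hn' := Finset.mem_filter.1 hn
    have hz : ∏ p ∈ S, p ≤ b - a := by rw [← hn'.2]; exact hsz n hn'.1
    have hsub : T.filter (fun n => σ n = S) ⊆ (Ioc a b).filter (fun n => (∏ p ∈ S, p) ∣ n) := by
      intro k hk
      rw [Finset.mem_filter] at hk ⊢
      refine ⟨hT hk.1, ?_⟩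
      apply Finset.prod_primes_dvd
      · intro p hp
        exact (hP p (hS hp)).prime
      · intro p hp
        exact hdvd k hk.1 p (by rw [hk.2]; exact hp)
    have hc : ((T.filter (fun n => σ n = S)).card : ℝ) ≤
        2 * ((b - a : ℕ) : ℝ) / ((∏ p ∈ S, p : ℕ) : ℝ) := by
      refine le_trans ?_ (count_dvd a b _ (by exact_mod_cast hS0) hz)
      exact_mod_cast Finset.card_le_card hsub
    calc ((T.filter (fun n => σ n = S)).card : ℝ) * (M * h ^ S.card)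
        ≤ (2 * ((b - a : ℕ) : ℝ) / ((∏ p ∈ S, p : ℕ) : ℝ)) * (M * h ^ S.card) :=
          mul_le_mul_of_nonneg_right hc (by positivity)
      _ = _ := by rw [hpr]; ring

theorem prod_exp (P : Finset ℕ) (X : ℕ) (hX : 1 ≤ X) (hP : ∀ p ∈ P, X < p) (h D : ℝ) (hh : 0 ≤ h)
    (hD : 0 < D) (hc : (P.card : ℝ) ≤ 2 * X / D) (hs : 2 * h / D ≤ 1) :
    ∏ p ∈ P, (1 + h / (p : ℝ)) ≤ 3 := by
  have hX0 : (0 : ℝ) < X := by exact_mod_cast hX
  have h1 : ∏ p ∈ P, (1 + h / (p : ℝ)) ≤ ∏ _p ∈ P, Real.exp (h / X) := by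
    refine Finset.prod_le_prod (fun p _ => by positivity) fun p hp => ?_
    have hpX : (X : ℝ) ≤ p := by exact_mod_cast (hP p hp).le
    have h2 : h / (p : ℝ) ≤ h / X := div_le_div_of_nonneg_left hh hX0 hpX
    have h3 := Real.add_one_le_exp (h / X)
    linarith
  rw [Finset.prod_const, ← Real.exp_nat_mul] at h1
  refine h1.trans ?_
  have h2 : (P.card : ℝ) * (h / X) ≤ 1 := by
    calc (P.card : ℝ) * (h / X) ≤ (2 * X / D) * (h / X) :=
          mul_le_mul_of_nonneg_right hc (by positivity)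
      _ = 2 * h / D := by field_simp
      _ ≤ 1 := hs
  calc Real.exp ((P.card : ℝ) * (h / X)) ≤ Real.exp 1 := Real.exp_le_exp.2 h2
    _ ≤ 3 := by
      have := Real.exp_one_lt_d9
      linarith

theorem exists_X : ∃ X₀ : ℕ, 1 ≤ X₀ ∧ ∀ X : ℕ, X₀ ≤ X → 7 ≤ Real.log X ∧
    2 * (Real.log X) ^ 2 ≤ Real.exp (Real.sqrt (Real.log X) / 3) := by
  refine ⟨⌈Real.exp (58320 ^ 2)⌉₊ + 1, by omega, fun X hX => ?_⟩
  have h1 : Real.exp (58320 ^ 2) ≤ X := by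
    refine (Nat.le_ceil _).trans ?_
    exact_mod_cast (by omega : ⌈Real.exp (58320 ^ 2)⌉₊ ≤ X)
  have h2 : (58320 : ℝ) ^ 2 ≤ Real.log X := by
    rw [Real.le_log_iff_exp_le (lt_of_lt_of_le (Real.exp_pos _) h1)]
    exact h1
  refine ⟨by norm_num at h2 ⊢; linarith, ?_⟩
  have hL : 0 ≤ Real.log X := le_trans (by norm_num) h2
  obtain ⟨w, hw⟩ : ∃ w : ℝ, w = Real.sqrt (Real.log X) := ⟨_, rfl⟩
  have hw1 : (58320 : ℝ) ≤ w := by
    rw [hw]
    exact Real.le_sqrt_of_sq_le h2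
  have hw2 : Real.log X = w ^ 2 := by rw [hw, Real.sq_sqrt hL]
  rw [← hw, hw2]
  have h3 := Real.pow_div_factorial_le_exp (w / 3) (by linarith) 5
  have h4 : (w / 3) ^ 5 / ((5 : ℕ).factorial : ℝ) = w ^ 5 / 29160 := by
    norm_num [Nat.factorial]
    ring
  rw [h4] at h3
  have h5 : 2 * (w ^ 2) ^ 2 ≤ w ^ 5 / 29160 := by
    have h6 : 0 ≤ w ^ 4 := by positivity
    have h7 : w ^ 5 = w * w ^ 4 := by ring
    rw [h7, le_div_iff₀ (by norm_num)]
    nlinarith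
  linarith

/-- the data of the smooth case -/
structure Ctx (N : ℕ) (g : ℕ → ℝ) (PK PL : Finset ℕ) (X : ℕ) : Prop where
  X7 : 7 ≤ Real.log X
  Xe : 2 * (Real.log X) ^ 2 ≤ Real.exp (Real.sqrt (Real.log X) / 3)
  XN : X ^ 128 < N
  pk : ∀ p ∈ PK, p.Prime ∧ X < p ∧ p ≤ 2 * X ∧ g p = AA X
  ck : (PK.card : ℝ) ≤ 2 * X / DD X
  pl : ∀ p ∈ PL, p.Prime ∧ 1 ≤ g p
  lp : ∏ p ∈ PL, (p : ℝ) ≤ Real.log N
  lg : ∏ p ∈ PL, g p ≤ Real.log N
  rest : ∀ p : ℕ, p.Prime → p ∉ PK → p ∉ PL → p ^ 128 < N →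
    g p = 0 ∨ (2 ≤ Real.log p ∧ g p = 2 / (Real.log p) ^ 2)

theorem sub_prod {U V : Finset ℕ} (hUV : U ⊆ V) (f : ℕ → ℝ) (hf : ∀ p ∈ V, 1 ≤ f p) :
    ∏ p ∈ U, f p ≤ ∏ p ∈ V, f p := by
  classical
  rw [← Finset.prod_sdiff hUV]
  have h1 : 1 ≤ ∏ p ∈ V \ U, f p := by
    calc (1 : ℝ) = ∏ _p ∈ V \ U, (1 : ℝ) := by simp
      _ ≤ ∏ p ∈ V \ U, f p := Finset.prod_le_prod (fun _ _ => zero_le_one)
          fun p hp => hf p (Finset.mem_sdiff.1 hp).1
  have h2 : 0 ≤ ∏ p ∈ U, f p := Finset.prod_nonneg fun p hp => zero_le_one.trans (hf p (hUV hp))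
  nlinarith

theorem AA_one {X : ℕ} : 1 ≤ AA X := by
  unfold AA
  exact Real.one_le_exp (Real.sqrt_nonneg _)

section
variable {N : ℕ} {g : ℕ → ℝ} {PK PL : Finset ℕ} {X : ℕ}

/-- prime factors in `PK` -/
def sS (PK : Finset ℕ) (n : ℕ) : Finset ℕ := n.primeFactors.filter (fun p => p ∈ PK)
/-- prime factors in `PL` but not in `PK` -/
def sL (PK PL : Finset ℕ) (n : ℕ) : Finset ℕ :=
  (n.primeFactors.filter (fun p => p ∉ PK)).filter (fun p => p ∈ PL)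
/-- the other prime factors -/
def sR (PK PL : Finset ℕ) (n : ℕ) : Finset ℕ :=
  (n.primeFactors.filter (fun p => p ∉ PK)).filter (fun p => p ∉ PL)

theorem split_prod (PK PL : Finset ℕ) (f : ℕ → ℝ) (n : ℕ) : ∏ p ∈ n.primeFactors, f p =
    (∏ p ∈ sS PK n, f p) * ((∏ p ∈ sL PK PL n, f p) * ∏ p ∈ sR PK PL n, f p) := by
  unfold sS sL sR
  rw [Finset.prod_filter_mul_prod_filter_not, Finset.prod_filter_mul_prod_filter_not]

theorem split_n (PK PL : Finset ℕ) (n : ℕ) (hn : Squarefree n) : (n : ℝ) =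
    (∏ p ∈ sS PK n, (p : ℝ)) * ((∏ p ∈ sL PK PL n, (p : ℝ)) * ∏ p ∈ sR PK PL n, (p : ℝ)) := by
  rw [← split_prod PK PL (fun p => (p : ℝ)) n]
  have := Nat.prod_primeFactors_of_squarefree hn
  conv_lhs => rw [← this]
  push_cast
  rfl

theorem prod_sS (h : Ctx N g PK PL X) (n : ℕ) : ∏ p ∈ sS PK n, g p = (AA X) ^ (sS PK n).card := by
  have e : ∀ p ∈ sS PK n, g p = AA X := fun p hp => (h.pk p (Finset.mem_filter.1 hp).2).2.2.2
  rw [Finset.prod_congr rfl e, Finset.prod_const]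

theorem prod_sL (h : Ctx N g PK PL X) (n : ℕ) : 0 ≤ ∏ p ∈ sL PK PL n, g p ∧
    ∏ p ∈ sL PK PL n, g p ≤ Real.log N ∧ 1 ≤ ∏ p ∈ sL PK PL n, (p : ℝ) ∧
    ∏ p ∈ sL PK PL n, (p : ℝ) ≤ Real.log N := by
  have hsub : sL PK PL n ⊆ PL := fun p hp => (Finset.mem_filter.1 hp).2
  have hp1 : ∀ p ∈ PL, (1 : ℝ) ≤ p := fun p hp => by exact_mod_cast (h.pl p hp).1.one_lt.le
  refine ⟨Finset.prod_nonneg fun p hp => zero_le_one.trans (h.pl p (hsub hp)).2,
    (sub_prod hsub g fun p hp => (h.pl p hp).2).trans h.lg, ?_,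
    (sub_prod hsub (fun p => (p : ℝ)) hp1).trans h.lp⟩
  calc (1 : ℝ) = ∏ _p ∈ sL PK PL n, (1 : ℝ) := by simp
    _ ≤ _ := Finset.prod_le_prod (fun _ _ => zero_le_one) fun p hp => hp1 p (hsub hp)

theorem rest_sR (h : Ctx N g PK PL X) (n : ℕ) (hn : ∀ p ∈ n.primeFactors, p ^ 128 < N) :
    ∀ p ∈ sR PK PL n, p.Prime ∧ p ^ 128 < N ∧
      (g p = 0 ∨ (2 ≤ Real.log p ∧ g p = 2 / (Real.log p) ^ 2)) := by
  intro p hp
  have h1 := Finset.mem_filter.1 hp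
  have h2 := Finset.mem_filter.1 h1.1
  have hpp := Nat.prime_of_mem_primeFactors h2.1
  exact ⟨hpp, hn p h2.1, h.rest p hpp h2.2 h1.2 (hn p h2.1)⟩

theorem prod_sR_le (h : Ctx N g PK PL X) (n : ℕ) (hn : ∀ p ∈ n.primeFactors, p ^ 128 < N) :
    0 ≤ ∏ p ∈ sR PK PL n, g p ∧ ∏ p ∈ sR PK PL n, g p ≤ 1 := by
  have h0 : ∀ p ∈ sR PK PL n, 0 ≤ g p ∧ g p ≤ 1 := by
    intro p hp
    rcases (rest_sR h n hn p hp).2.2 with h1 | ⟨h1, h2⟩
    · rw [h1]; exact ⟨le_rfl, zero_le_one⟩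
    · rw [h2]
      refine ⟨by positivity, ?_⟩
      rw [div_le_one (by positivity)]
      nlinarith
  exact ⟨Finset.prod_nonneg fun p hp => (h0 p hp).1,
    Finset.prod_le_one (fun p hp => (h0 p hp).1) fun p hp => (h0 p hp).2⟩

theorem log128 {N p : ℕ} (hp : 1 ≤ p) (h : p ^ 128 < N) : 128 * Real.log p < Real.log N := by
  have h1 : ((p : ℝ)) ^ 128 < N := by exact_mod_cast h
  have h2 : (0 : ℝ) < (p : ℝ) ^ 128 := by positivity
  have h3 := Real.log_lt_log h2 h1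
  rw [Real.log_pow] at h3
  exact_mod_cast h3

theorem bcase (h : Ctx N g PK PL X) {C : ℝ} (hC : 0 ≤ C)
    (hsmo : ∀ n : ℕ, 1 < n → Squarefree n →
      (∀ p ∈ n.primeFactors, 2 ≤ Real.log p ∧ 32 * Real.log p ≤ Real.log n) →
      ∏ p ∈ n.primeFactors, (2 / (Real.log p) ^ 2) ≤ C / (Real.log n) ^ 8)
    (hℓ1 : 1 ≤ Real.log N) (hℓ : Real.log (Real.log N) ≤ Real.log N / 6) (n : ℕ) (hn : Squarefree n)
    (hnN : N < n) (hp : ∀ p ∈ n.primeFactors, p ^ 128 < N)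
    (hb : (∏ p ∈ sS PK n, (p : ℝ)) ^ 2 ≤ n) :
    ∏ p ∈ n.primeFactors, g p ≤ (C * 3 ^ 8 / (Real.log N) ^ 7) * (AA X) ^ (sS PK n).card := by
  classical
  have hN0 : 0 < N := lt_of_le_of_lt (Nat.zero_le _) h.XN
  have hn0 : 0 < n := lt_of_le_of_lt (Nat.zero_le _) hnN
  have hA : 0 < AA X := lt_of_lt_of_le one_pos AA_one
  have hrhs : 0 ≤ (C * 3 ^ 8 / (Real.log N) ^ 7) * (AA X) ^ (sS PK n).card := by positivity
  obtain ⟨hL0, hL1, hL2, hL3⟩ := prod_sL h n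
  obtain ⟨hR0, hR1⟩ := prod_sR_le h n hp
  have hR := rest_sR h n hp
  rw [split_prod PK PL g n, prod_sS h n]
  by_cases hz : ∃ p ∈ sR PK PL n, g p = 0
  · obtain ⟨p, hp1, hp2⟩ := hz
    rw [Finset.prod_eq_zero hp1 hp2, mul_zero, mul_zero]
    exact hrhs
  push Not at hz
  have hR' : ∀ p ∈ sR PK PL n, 2 ≤ Real.log p ∧ g p = 2 / (Real.log p) ^ 2 := by
    intro p hp1
    rcases (hR p hp1).2.2 with h1 | h1
    · exact absurd h1 (hz p hp1)
    · exact h1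
  obtain ⟨n1, hn1⟩ : ∃ n1 : ℕ, n1 = ∏ p ∈ sR PK PL n, p := ⟨_, rfl⟩
  have hn1p : n1.primeFactors = sR PK PL n := by
    rw [hn1]
    exact Nat.primeFactors_prod fun p hp1 => (hR p hp1).1
  have hn1d : n1 ∣ n := by
    rw [hn1]
    apply Finset.prod_primes_dvd
    · intro p hp1; exact (hR p hp1).1.prime
    · intro p hp1
      have h1 := Finset.mem_filter.1 hp1
      have h2 := Finset.mem_filter.1 h1.1
      exact Nat.dvd_of_mem_primeFactors h2.1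
  have hn1s : Squarefree n1 := hn.squarefree_of_dvd hn1d
  have hn1c : ∏ p ∈ sR PK PL n, (p : ℝ) = (n1 : ℝ) := by rw [hn1]; push_cast; rfl
  have hn10 : 0 < n1 := Nat.pos_of_ne_zero fun h0 => by
    rw [h0, zero_dvd_iff] at hn1d; omega
  have hsp := split_n PK PL n hn
  rw [hn1c] at hsp
  have hK0 : (0 : ℝ) < ∏ p ∈ sS PK n, (p : ℝ) :=
    Finset.prod_pos fun p hp1 => by exact_mod_cast (h.pk p (Finset.mem_filter.1 hp1).2).1.pos
  have hLp : (0 : ℝ) < ∏ p ∈ sL PK PL n, (p : ℝ) := lt_of_lt_of_le one_pos hL2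
  have hn1r : (0 : ℝ) < n1 := by exact_mod_cast hn10
  have hnr : (0 : ℝ) < n := by exact_mod_cast hn0
  have hlog : Real.log n = Real.log (∏ p ∈ sS PK n, (p : ℝ)) +
      (Real.log (∏ p ∈ sL PK PL n, (p : ℝ)) + Real.log n1) := by
    conv_lhs => rw [hsp]
    rw [Real.log_mul hK0.ne' (by positivity), Real.log_mul hLp.ne' hn1r.ne']
  have hlK : 2 * Real.log (∏ p ∈ sS PK n, (p : ℝ)) ≤ Real.log n := by
    have := Real.log_le_log (by positivity) hb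
    rwa [Real.log_pow] at this
  have hlL : Real.log (∏ p ∈ sL PK PL n, (p : ℝ)) ≤ Real.log N / 6 :=
    (Real.log_le_log hLp hL3).trans hℓ
  have hln : Real.log N ≤ Real.log n := by
    apply Real.log_le_log (by exact_mod_cast hN0)
    exact_mod_cast hnN.le
  have hl1 : Real.log N / 3 ≤ Real.log n1 := by linarith
  have hl1' : Real.log n ≤ 3 * Real.log n1 := by linarith
  have hn1g : 1 < n1 := by
    have h1 : 0 < Real.log n1 := by linarith
    have h2 := (Real.log_pos_iff hn1r.le).1 h1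
    exact_mod_cast h2
  have hs := hsmo n1 hn1g hn1s (by
    intro p hp1
    rw [hn1p] at hp1
    refine ⟨(hR' p hp1).1, ?_⟩
    have h1 := log128 (hR p hp1).1.one_lt.le (hR p hp1).2.1
    have h2 : 0 ≤ Real.log (p : ℝ) := le_trans (by norm_num) (hR' p hp1).1
    linarith)
  rw [hn1p] at hs
  have hgR : ∏ p ∈ sR PK PL n, g p ≤ C * 3 ^ 8 / (Real.log N) ^ 8 := by
    rw [Finset.prod_congr rfl (fun p hp1 => (hR' p hp1).2)]
    refine hs.trans ?_
    have h3 : (Real.log N / 3) ^ 8 ≤ (Real.log n1) ^ 8 :=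
      pow_le_pow_left₀ (by linarith) hl1 8
    calc C / (Real.log n1) ^ 8 ≤ C / (Real.log N / 3) ^ 8 :=
          div_le_div_of_nonneg_left hC (by positivity) h3
      _ = C * 3 ^ 8 / (Real.log N) ^ 8 := by rw [div_pow]; field_simp
  have hfin : (∏ p ∈ sL PK PL n, g p) * ∏ p ∈ sR PK PL n, g p ≤ C * 3 ^ 8 / (Real.log N) ^ 7 := by
    calc (∏ p ∈ sL PK PL n, g p) * ∏ p ∈ sR PK PL n, g p
        ≤ Real.log N * (C * 3 ^ 8 / (Real.log N) ^ 8) :=
          mul_le_mul hL1 hgR hR0 (by linarith)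
      _ = C * 3 ^ 8 / (Real.log N) ^ 7 := by
          have : Real.log N ≠ 0 := by linarith
          field_simp
  calc (AA X) ^ (sS PK n).card * ((∏ p ∈ sL PK PL n, g p) * ∏ p ∈ sR PK PL n, g p)
      ≤ (AA X) ^ (sS PK n).card * (C * 3 ^ 8 / (Real.log N) ^ 7) :=
        mul_le_mul_of_nonneg_left hfin (by positivity)
    _ = _ := by ring

theorem Ctx.X1 (h : Ctx N g PK PL X) : 1 ≤ X := by
  rcases Nat.eq_zero_or_pos X with h0 | h0
  · have := h.X7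
    rw [h0] at this
    norm_num at this
  · exact h0

theorem log2X (h : Ctx N g PK PL X) : Real.log (2 * X) ≤ 1.1 * Real.log X := by
  have hX : (0 : ℝ) < X := by exact_mod_cast h.X1
  rw [Real.log_mul (by norm_num) hX.ne']
  have h1 := Real.log_two_lt_d9
  have h2 := h.X7
  linarith

theorem ccase (h : Ctx N g PK PL X) (n : ℕ) (hn : Squarefree n)
    (hnN : N < n) (hn2 : n ≤ 2 * N) (hp : ∀ p ∈ n.primeFactors, p ^ 128 < N)
    (hc : (n : ℝ) < (∏ p ∈ sS PK n, (p : ℝ)) ^ 2) :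
    ∃ S' : Finset ℕ, S' ⊆ sS PK n ∧ Real.log (∏ p ∈ S', (p : ℝ)) ≤ 0.84 * Real.log N + 1 ∧
      ∏ p ∈ n.primeFactors, g p ≤ (Real.log N * Real.exp (-Real.sqrt (Real.log N))) *
        (Real.exp (Real.sqrt (Real.log X) / 3) ^ 5) ^ S'.card := by
  classical
  have hN0 : 0 < N := lt_of_le_of_lt (Nat.zero_le _) h.XN
  have hN0r : (0 : ℝ) < N := by exact_mod_cast hN0
  have hn0 : 0 < n := lt_of_le_of_lt (Nat.zero_le _) hnN
  have hnr : (0 : ℝ) < n := by exact_mod_cast hn0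
  have hX0 : (0 : ℝ) < X := by exact_mod_cast h.X1
  obtain ⟨hL0, hL1, hL2, hL3⟩ := prod_sL h n
  obtain ⟨hR0, hR1⟩ := prod_sR_le h n hp
  have hW7 := h.X7
  have h2X := log2X h
  have hWN := log128 h.X1 h.XN
  have hl2 := Real.log_two_lt_d9
  obtain ⟨W, hW⟩ : ∃ W : ℝ, W = Real.log X := ⟨_, rfl⟩
  obtain ⟨ℓ, hℓ⟩ : ∃ ℓ : ℝ, ℓ = Real.log N := ⟨_, rfl⟩
  obtain ⟨r, hr⟩ : ∃ r : ℕ, r = (sS PK n).card := ⟨_, rfl⟩
  have hmem : ∀ p ∈ sS PK n, (X : ℝ) ≤ p ∧ (p : ℝ) ≤ 2 * X := by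
    intro p hp1
    have h1 := h.pk p (Finset.mem_filter.1 hp1).2
    exact ⟨by exact_mod_cast h1.2.1.le, by exact_mod_cast h1.2.2.1⟩
  have hup : ∀ U : Finset ℕ, U ⊆ sS PK n → Real.log (∏ p ∈ U, (p : ℝ)) ≤ U.card * (1.1 * W) := by
    intro U hU
    have h1 : ∏ p ∈ U, (p : ℝ) ≤ (2 * X) ^ U.card := by
      rw [← Finset.prod_const]
      exact Finset.prod_le_prod (fun _ _ => Nat.cast_nonneg _) fun p hp1 => (hmem p (hU hp1)).2
    have h2 : 0 < ∏ p ∈ U, (p : ℝ) := Finset.prod_pos fun p hp1 => lt_of_lt_of_le hX0 (hmem p (hU hp1)).1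
    have h3 := Real.log_le_log h2 h1
    rw [Real.log_pow] at h3
    refine h3.trans (mul_le_mul_of_nonneg_left ?_ (Nat.cast_nonneg _))
    rw [hW]; exact h2X
  have hK0 : (0 : ℝ) < ∏ p ∈ sS PK n, (p : ℝ) :=
    Finset.prod_pos fun p hp1 => lt_of_lt_of_le hX0 (hmem p hp1).1
  have hlow : (r : ℝ) * W ≤ Real.log (∏ p ∈ sS PK n, (p : ℝ)) := by
    have h1 : (X : ℝ) ^ r ≤ ∏ p ∈ sS PK n, (p : ℝ) := by
      rw [hr, ← Finset.prod_const]
      exact Finset.prod_le_prod (fun _ _ => hX0.le) fun p hp1 => (hmem p hp1).1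
    have h3 := Real.log_le_log (by positivity) h1
    rwa [Real.log_pow, ← hW] at h3
  have hRp : (1 : ℝ) ≤ ∏ p ∈ sR PK PL n, (p : ℝ) := by
    calc (1 : ℝ) = ∏ _p ∈ sR PK PL n, (1 : ℝ) := by simp
      _ ≤ _ := Finset.prod_le_prod (fun _ _ => zero_le_one) fun p hp1 => by
          exact_mod_cast (rest_sR h n hp p hp1).1.one_lt.le
  have hKn : ∏ p ∈ sS PK n, (p : ℝ) ≤ n := by
    conv_rhs => rw [split_n PK PL n hn]
    nlinarith [mul_le_mul hL2 hRp zero_le_one (zero_le_one.trans hL2)]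
  have hlogn : Real.log n ≤ ℓ + 0.7 := by
    have h1 : (n : ℝ) ≤ 2 * N := by exact_mod_cast hn2
    have h2 := Real.log_le_log hnr h1
    rw [Real.log_mul (by norm_num) hN0r.ne', ← hℓ] at h2
    linarith
  have hlogn' : ℓ ≤ Real.log n := by
    rw [hℓ]
    apply Real.log_le_log hN0r
    exact_mod_cast hnN.le
  have hrW : (r : ℝ) * W ≤ ℓ + 0.7 := (hlow.trans (Real.log_le_log hK0 hKn)).trans hlogn
  have hr1 : ℓ ≤ 2.2 * r * W := by
    have h1 := Real.log_le_log hnr hc.le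
    rw [Real.log_pow] at h1
    have h2 := hup _ (Finset.Subset.refl _)
    rw [← hr] at h2
    push_cast at h1
    linarith
  rw [← hW, ← hℓ] at hWN
  rw [← hW] at hW7
  have hℓ0 : 0 < ℓ := by linarith
  obtain ⟨r', hr'1, hr'2, hr'3⟩ : ∃ r' : ℕ, 3 * r ≤ 4 * r' ∧ 4 * r' ≤ 3 * r + 3 ∧ r' ≤ r :=
    ⟨(3 * r + 3) / 4, by omega, by omega, by omega⟩
  obtain ⟨S', hS', hS'c⟩ := Finset.exists_subset_card_eq (s := sS PK n) (n := r') (hr ▸ hr'3)
  have hr'1' : 3 * (r : ℝ) ≤ 4 * r' := by exact_mod_cast hr'1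
  have hr'2' : 4 * (r' : ℝ) ≤ 3 * r + 3 := by exact_mod_cast hr'2
  refine ⟨S', hS', ?_, ?_⟩
  · have h1 := hup S' hS'
    rw [hS'c] at h1
    rw [← hℓ]
    have h2 : (r' : ℝ) * (1.1 * W) ≤ ((3 * r + 3) / 4) * (1.1 * W) :=
      mul_le_mul_of_nonneg_right (by linarith) (by linarith)
    have h3 : ((3 * (r : ℝ) + 3) / 4) * (1.1 * W) = 0.825 * (r * W) + 0.825 * W := by ring
    linarith
  · rw [split_prod PK PL g n, prod_sS h n, ← hr, hS'c, ← hℓ]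
    obtain ⟨w, hw⟩ : ∃ w : ℝ, w = Real.sqrt (Real.log X) := ⟨_, rfl⟩
    have hw0 : 0 ≤ w := by rw [hw]; exact Real.sqrt_nonneg _
    have hw2 : w ^ 2 = W := by rw [hw, hW, Real.sq_sqrt]; rw [← hW]; linarith
    have hAr : (AA X) ^ r ≤ Real.exp (-Real.sqrt ℓ) * (Real.exp (w / 3) ^ 5) ^ r' := by
      unfold AA
      rw [← hw, ← Real.exp_nat_mul, ← pow_mul, ← Real.exp_nat_mul, ← Real.exp_add, Real.exp_le_exp]
      have h1 : Real.sqrt ℓ ≤ r * w / 4 := by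
        apply Real.sqrt_le_iff.2
        refine ⟨by positivity, ?_⟩
        have a1 : ℓ * ℓ ≤ (2.2 * r * W) * (2.2 * r * W) := mul_self_le_mul_self hℓ0.le hr1
        have a2 : (2.2 * (r : ℝ) * W) * (2.2 * r * W) ≤ (4.84 * r ^ 2 * W / 128) * ℓ := by
          have a3 : 0 ≤ 4.84 * (r : ℝ) ^ 2 * W / 128 := by positivity
          have a4 := mul_le_mul_of_nonneg_left hWN.le a3
          calc (2.2 * (r : ℝ) * W) * (2.2 * r * W) = (4.84 * r ^ 2 * W / 128) * (128 * W) := by ring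
            _ ≤ _ := a4
        have a5 : ℓ ≤ 4.84 * r ^ 2 * W / 128 := le_of_mul_le_mul_right (a1.trans a2) hℓ0
        have a6 : (r * w / 4) ^ 2 = r ^ 2 * W / 16 := by rw [← hw2]; ring
        rw [a6]
        have a7 : 0 ≤ (r : ℝ) ^ 2 * W := by positivity
        linarith
      push_cast
      have h2 : 3 * (r * w) ≤ 4 * (r' * w) := by nlinarith
      nlinarith
    calc (AA X) ^ r * ((∏ p ∈ sL PK PL n, g p) * ∏ p ∈ sR PK PL n, g p)
        ≤ (Real.exp (-Real.sqrt ℓ) * (Real.exp (w / 3) ^ 5) ^ r') * (ℓ * 1) := by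
          apply mul_le_mul hAr _ (mul_nonneg hL0 hR0) (by positivity)
          rw [hℓ]
          exact mul_le_mul hL1 hR1 hR0 (by rw [← hℓ]; exact hℓ0.le)
      _ = _ := by rw [← hw]; ring

theorem hDD (h : Ctx N g PK PL X) : 0 < DD X ∧ 2 * AA X / DD X ≤ 1 ∧
    2 * Real.exp (Real.sqrt (Real.log X) / 3) ^ 5 / DD X ≤ 1 := by
  have hW7 := h.X7
  have hXe := h.Xe
  obtain ⟨W, hW⟩ : ∃ W : ℝ, W = Real.log X := ⟨_, rfl⟩
  obtain ⟨w, hw⟩ : ∃ w : ℝ, w = Real.sqrt W := ⟨_, rfl⟩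
  have hw0 : 0 ≤ w := by rw [hw]; exact Real.sqrt_nonneg _
  unfold DD AA
  rw [← hW] at hW7 hXe ⊢
  rw [← hw] at hXe ⊢
  have hW0 : 0 < W := by linarith
  have hD : 0 < Real.exp (2 * w) / W ^ 2 := by positivity
  have e1 : Real.exp (2 * w) = Real.exp w * Real.exp w := by rw [← Real.exp_add]; ring_nf
  have e2 : Real.exp (2 * w) = Real.exp (w / 3) ^ 5 * Real.exp (w / 3) := by
    rw [← Real.exp_nat_mul, ← Real.exp_add]; congr 1; push_cast; ring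
  have e3 : Real.exp (w / 3) ≤ Real.exp w := Real.exp_le_exp.2 (by linarith)
  refine ⟨hD, ?_, ?_⟩
  · rw [div_le_one hD, le_div_iff₀ (by positivity), e1]
    have := Real.exp_pos w
    nlinarith
  · rw [div_le_one hD, le_div_iff₀ (by positivity), e2]
    have := pow_pos (Real.exp_pos (w / 3)) 5
    nlinarith

theorem ev_ell (C s : ℝ) (hs : 0 < s) : ∃ ℓ₀ : ℝ, 9 ≤ ℓ₀ ∧ ∀ ℓ : ℝ, ℓ₀ ≤ ℓ →
    Real.log ℓ ≤ ℓ / 6 ∧ 6 * (C * 3 ^ 8 / ℓ ^ 4 + ℓ ^ 4 * Real.exp (-Real.sqrt ℓ)) ≤ s := by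
  have h1 : ∀ᶠ ℓ : ℝ in Filter.atTop, Real.log ℓ ≤ ℓ / 6 := by
    have := Real.isLittleO_log_id_atTop.bound (c := 1 / 6) (by norm_num)
    filter_upwards [this, Filter.eventually_ge_atTop (1 : ℝ)] with ℓ h2 h3
    simp only [id, Real.norm_eq_abs] at h2
    rw [abs_of_nonneg (by linarith : (0 : ℝ) ≤ ℓ)] at h2
    have := le_abs_self (Real.log ℓ)
    linarith
  have h2 : Filter.Tendsto (fun ℓ : ℝ => 6 * (C * 3 ^ 8 / ℓ ^ 4 + ℓ ^ 4 * Real.exp (-Real.sqrt ℓ)))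
      Filter.atTop (nhds 0) := by
    have a1 : Filter.Tendsto (fun ℓ : ℝ => C * 3 ^ 8 / ℓ ^ 4) Filter.atTop (nhds 0) :=
      (Filter.tendsto_pow_atTop (by norm_num)).const_div_atTop _
    have a2 := (Real.tendsto_pow_mul_exp_neg_atTop_nhds_zero 8).comp Real.tendsto_sqrt_atTop
    have a3 : Filter.Tendsto (fun ℓ : ℝ => ℓ ^ 4 * Real.exp (-Real.sqrt ℓ)) Filter.atTop (nhds 0) := by
      refine a2.congr' ?_
      filter_upwards [Filter.eventually_ge_atTop (0 : ℝ)] with ℓ hℓ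
      show Real.sqrt ℓ ^ 8 * Real.exp (-Real.sqrt ℓ) = _
      congr 1
      have : Real.sqrt ℓ ^ 8 = (Real.sqrt ℓ ^ 2) ^ 4 := by ring
      rw [this, Real.sq_sqrt hℓ]
    simpa using (a1.add a3).const_mul 6
  obtain ⟨ℓ₀, hℓ₀⟩ := Filter.eventually_atTop.1 (h1.and ((h2.eventually (gt_mem_nhds hs))))
  exact ⟨max 9 ℓ₀, le_max_left _ _, fun ℓ hℓ =>
    ⟨(hℓ₀ ℓ (le_of_max_le_right hℓ)).1, (hℓ₀ ℓ (le_of_max_le_right hℓ)).2.le⟩⟩

end

theorem two_pow (Q j : ℕ) (hj : 4 * Q + 2 ≤ j) : (j + 1) ^ (2 * Q) ≤ 2 * j ^ (2 * Q) := by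
  have hj0 : (0 : ℝ) < (j : ℝ) + 1 := by positivity
  have h1 : (1 : ℝ) + (2 * Q : ℕ) * (-(1 / ((j : ℝ) + 1))) ≤ (1 + -(1 / ((j : ℝ) + 1))) ^ (2 * Q) := by
    apply one_add_mul_le_pow
    have : 1 / ((j : ℝ) + 1) ≤ 1 := by
      rw [div_le_one hj0]; linarith [Nat.cast_nonneg (α := ℝ) j]
    linarith
  have h2 : ((2 * Q : ℕ) : ℝ) * (1 / ((j : ℝ) + 1)) ≤ 1 / 2 := by
    rw [mul_one_div, div_le_iff₀ hj0]
    have : (4 * Q + 2 : ℝ) ≤ j := by exact_mod_cast hj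
    push_cast
    linarith
  have h3 : (1 + -(1 / ((j : ℝ) + 1))) = (j : ℝ) / (j + 1) := by field_simp; ring
  rw [h3, div_pow] at h1
  have h4 : (1 : ℝ) / 2 ≤ (j : ℝ) ^ (2 * Q) / (j + 1) ^ (2 * Q) := by linarith
  rw [le_div_iff₀ (by positivity)] at h4
  have h5 : ((j : ℝ) + 1) ^ (2 * Q) ≤ 2 * (j : ℝ) ^ (2 * Q) := by linarith
  exact_mod_cast h5

theorem card_low (Q j : ℕ) (hQ : 1 ≤ Q) : j ^ (2 * Q - 1) ≤ (j + 1) ^ (2 * Q) - j ^ (2 * Q) := by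
  obtain ⟨k, hk⟩ : ∃ k, 2 * Q = k + 1 := ⟨2 * Q - 1, by omega⟩
  rw [hk, Nat.add_sub_cancel]
  have h1 : j ^ k ≤ (j + 1) ^ k := Nat.pow_le_pow_left (by omega) k
  have h2 : (j + 1) ^ (k + 1) = (j + 1) * (j + 1) ^ k := by ring
  have h3 : j ^ (k + 1) = j * j ^ k := by ring
  have h4 : (j + 1) * j ^ k ≤ (j + 1) * (j + 1) ^ k := Nat.mul_le_mul_left _ h1
  have h5 : (j + 1) * j ^ k = j * j ^ k + j ^ k := by ring
  omega

/-- the bound under the hypotheses `Ctx` -/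
theorem core (C : ℝ) (hC : 0 ≤ C) (hsmo : ∀ n : ℕ, 1 < n → Squarefree n →
      (∀ p ∈ n.primeFactors, 2 ≤ Real.log p ∧ 32 * Real.log p ≤ Real.log n) →
      ∏ p ∈ n.primeFactors, (2 / (Real.log p) ^ 2) ≤ C / (Real.log n) ^ 8)
    (s : ℝ) (hs : 0 < s) (Q : ℕ) (hQ : 10 ≤ Q) : ∃ J₁ : ℕ, ∀ j : ℕ, J₁ ≤ j →
    ∀ (g : ℕ → ℝ) (PK PL : Finset ℕ) (X : ℕ), Ctx (j ^ (2 * Q)) g PK PL X →
    ∀ T : Finset ℕ, T ⊆ CC Q j → (∀ n ∈ T, Squarefree n ∧ ∀ p ∈ n.primeFactors, p ^ 128 < j ^ (2 * Q)) →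
      ∑ n ∈ T, ∏ p ∈ n.primeFactors, g p ≤ s * (CC Q j).card / (Real.log j) ^ 3 := by
  classical
  obtain ⟨ℓ₀, hℓ9, hℓ₀⟩ := ev_ell C s hs
  refine ⟨max ⌈Real.exp ℓ₀⌉₊ (4 * Q + 2), fun j hj g PK PL X h T hT hTn => ?_⟩
  have hj1 : ⌈Real.exp ℓ₀⌉₊ ≤ j := le_of_max_le_left hj
  have hj2 : 4 * Q + 2 ≤ j := le_of_max_le_right hj
  have hj0 : (0 : ℝ) < j := by
    have : 0 < j := by omega
    exact_mod_cast this
  have hlj : ℓ₀ ≤ Real.log j := by
    rw [Real.le_log_iff_exp_le hj0]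
    exact (Nat.le_ceil _).trans (by exact_mod_cast hj1)
  have hQr : (10 : ℝ) ≤ Q := by exact_mod_cast hQ
  obtain ⟨N, hN⟩ : ∃ N : ℕ, N = j ^ (2 * Q) := ⟨_, rfl⟩
  have hlN : Real.log (N : ℝ) = 2 * Q * Real.log j := by
    rw [hN]; push_cast; rw [Real.log_pow]; push_cast; ring
  have hlN1 : Real.log j ≤ Real.log (N : ℝ) := by rw [hlN]; nlinarith
  have hlN0 : ℓ₀ ≤ Real.log (N : ℝ) := hlj.trans hlN1
  obtain ⟨hA1, hA2⟩ := hℓ₀ _ hlN0
  have hl9 : 9 ≤ Real.log (N : ℝ) := hℓ9.trans hlN0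
  have hcard : ((CC Q j).card : ℝ) = (((j + 1) ^ (2 * Q) - j ^ (2 * Q) : ℕ) : ℝ) := by
    unfold CC; rw [Nat.card_Ioc]
  have hlow := card_low Q j (by omega)
  have hmem : ∀ n ∈ T, N < n ∧ n ≤ 2 * N := by
    intro n hn
    have h1 := hT hn
    unfold CC at h1
    rw [Finset.mem_Ioc] at h1
    rw [hN]
    exact ⟨h1.1, h1.2.trans (two_pow Q j hj2)⟩
  rw [← hN] at h hTn
  obtain ⟨hD0, hD1, hD2⟩ := hDD h
  have hPKp : ∀ p ∈ PK, p.Prime := fun p hp => (h.pk p hp).1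
  have hsub : ∀ n, sS PK n ⊆ PK := fun n p hp => (Finset.mem_filter.1 hp).2
  have hdv : ∀ n, ∀ p ∈ sS PK n, p ∣ n := fun n p hp =>
    Nat.dvd_of_mem_primeFactors (Finset.mem_filter.1 hp).1
  obtain ⟨Tb, hTb⟩ : ∃ Tb : Finset ℕ, Tb = T.filter (fun n => (∏ p ∈ sS PK n, (p : ℝ)) ^ 2 ≤ n) :=
    ⟨_, rfl⟩
  obtain ⟨Tc, hTc⟩ : ∃ Tc : Finset ℕ, Tc = T.filter (fun n => ¬ (∏ p ∈ sS PK n, (p : ℝ)) ^ 2 ≤ n) :=
    ⟨_, rfl⟩
  have hsum : ∑ n ∈ T, ∏ p ∈ n.primeFactors, g p =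
      (∑ n ∈ Tb, ∏ p ∈ n.primeFactors, g p) + ∑ n ∈ Tc, ∏ p ∈ n.primeFactors, g p := by
    rw [hTb, hTc, Finset.sum_filter_add_sum_filter_not]
  have hTbT : Tb ⊆ T := by rw [hTb]; exact Finset.filter_subset _ _
  have hTcT : Tc ⊆ T := by rw [hTc]; exact Finset.filter_subset _ _
  obtain ⟨D, hDef⟩ : ∃ D : ℕ, D = (j + 1) ^ (2 * Q) - j ^ (2 * Q) := ⟨_, rfl⟩
  have hTD : T ⊆ Ioc (j ^ (2 * Q)) ((j + 1) ^ (2 * Q)) := hT
  obtain ⟨ℓ, hℓ⟩ : ∃ ℓ : ℝ, ℓ = Real.log (N : ℝ) := ⟨_, rfl⟩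
  have hb : ∑ n ∈ Tb, ∏ p ∈ n.primeFactors, g p ≤
      2 * (C * 3 ^ 8 / ℓ ^ 7) * (D : ℝ) * 3 := by
    have h1 := sieve (j ^ (2 * Q)) ((j + 1) ^ (2 * Q)) Tb PK (hTbT.trans hTD) hPKp (sS PK)
      (fun n _ => hsub n) (fun n _ => hdv n) (by
        intro n hn
        have hn1 := hmem n (hTbT hn)
        rw [hTb] at hn
        have hn2 := (Finset.mem_filter.1 hn).2
        have hn3 : (∏ p ∈ sS PK n, p) ^ 2 ≤ n := by
          have e : ((∏ p ∈ sS PK n, p : ℕ) : ℝ) = ∏ p ∈ sS PK n, (p : ℝ) := Nat.cast_prod _ _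
          rw [← e, ← Nat.cast_pow] at hn2
          exact Nat.cast_le.1 hn2
        refine le_trans ?_ hlow
        by_contra hcon
        push Not at hcon
        have h2 : (j ^ (2 * Q - 1)) ^ 2 < (∏ p ∈ sS PK n, p) ^ 2 :=
          Nat.pow_lt_pow_left hcon (by norm_num)
        have h3 : (j ^ (2 * Q - 1)) ^ 2 = j ^ (2 * Q) * j ^ (2 * Q - 2) := by
          rw [← pow_mul, ← pow_add]; congr 1; omega
        have h4 : 2 ≤ j ^ (2 * Q - 2) := by
          calc 2 ≤ j := by omega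
            _ = j ^ 1 := (pow_one j).symm
            _ ≤ j ^ (2 * Q - 2) := Nat.pow_le_pow_right (by omega) (by omega)
        have h5 : j ^ (2 * Q) * 2 ≤ j ^ (2 * Q) * j ^ (2 * Q - 2) := Nat.mul_le_mul_left _ h4
        rw [hN] at hn1
        omega)
      (fun n => ∏ p ∈ n.primeFactors, g p) (C * 3 ^ 8 / ℓ ^ 7) (AA X)
      (by rw [hℓ]; have : 0 < Real.log (N : ℝ) := by linarith
          positivity) (zero_le_one.trans AA_one) (by
        intro n hn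
        have hn1 := hmem n (hTbT hn)
        have hn2 := hTn n (hTbT hn)
        rw [hTb] at hn
        rw [hℓ]
        exact bcase h hC hsmo (by linarith) hA1 n hn2.1 hn1.1 hn2.2 (Finset.mem_filter.1 hn).2)
    refine h1.trans ?_
    rw [← hDef]
    refine mul_le_mul_of_nonneg_left (prod_exp PK X h.X1 (fun p hp => (h.pk p hp).2.1) _ _
      (zero_le_one.trans AA_one) hD0 h.ck hD1) ?_
    have : 0 < ℓ := by rw [hℓ]; linarith
    positivity
  have hc : ∑ n ∈ Tc, ∏ p ∈ n.primeFactors, g p ≤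
      2 * (ℓ * Real.exp (-Real.sqrt ℓ)) * (D : ℝ) * 3 := by
    have hex : ∀ n : ℕ, ∃ S' : Finset ℕ, n ∈ Tc → (S' ⊆ sS PK n ∧
        Real.log (∏ p ∈ S', (p : ℝ)) ≤ 0.84 * Real.log N + 1 ∧
        ∏ p ∈ n.primeFactors, g p ≤ (Real.log N * Real.exp (-Real.sqrt (Real.log N))) *
        (Real.exp (Real.sqrt (Real.log X) / 3) ^ 5) ^ S'.card) := by
      intro n
      by_cases hn : n ∈ Tc
      · have hn1 := hmem n (hTcT hn)
        have hn2 := hTn n (hTcT hn)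
        have hn3 : (n : ℝ) < (∏ p ∈ sS PK n, (p : ℝ)) ^ 2 := by
          have hn' := hn
          rw [hTc] at hn'
          exact not_le.1 (Finset.mem_filter.1 hn').2
        obtain ⟨S', h1, h2, h3⟩ := ccase h n hn2.1 hn1.1 hn1.2 hn2.2 hn3
        exact ⟨S', fun _ => ⟨h1, h2, h3⟩⟩
      · exact ⟨∅, fun h0 => absurd h0 hn⟩
    choose σ hσ using hex
    have h1 := sieve (j ^ (2 * Q)) ((j + 1) ^ (2 * Q)) Tc PK (hTcT.trans hTD) hPKp σ
      (fun n hn => (hσ n hn).1.trans (hsub n)) (fun n hn p hp => hdv n p ((hσ n hn).1 hp)) (by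
        intro n hn
        refine le_trans ?_ hlow
        have h2 := (hσ n hn).2.1
        have hpos : (0 : ℝ) < ∏ p ∈ σ n, (p : ℝ) := Finset.prod_pos fun p hp => by
          exact_mod_cast (hPKp p (hsub n ((hσ n hn).1 hp))).pos
        have h3 : Real.log (∏ p ∈ σ n, (p : ℝ)) ≤ Real.log ((j : ℝ) ^ (2 * Q - 1)) := by
          refine h2.trans ?_
          rw [Real.log_pow, hlN]
          have h4 : ((2 * Q - 1 : ℕ) : ℝ) = 2 * Q - 1 := by
            rw [Nat.cast_sub (by omega)]; push_cast; ring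
          rw [h4]
          have h5 : 9 ≤ Real.log (j : ℝ) := hℓ9.trans hlj
          nlinarith
        have h4 := (Real.log_le_log_iff hpos (by positivity)).1 h3
        have e : ((∏ p ∈ σ n, p : ℕ) : ℝ) = ∏ p ∈ σ n, (p : ℝ) := Nat.cast_prod _ _
        rw [← e, ← Nat.cast_pow] at h4
        exact Nat.cast_le.1 h4)
      (fun n => ∏ p ∈ n.primeFactors, g p) (ℓ * Real.exp (-Real.sqrt ℓ))
      (Real.exp (Real.sqrt (Real.log X) / 3) ^ 5)
      (by have : 0 < ℓ := by rw [hℓ]; linarith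
          positivity) (by positivity) (by
        intro n hn
        rw [hℓ]
        exact (hσ n hn).2.2)
    refine h1.trans ?_
    rw [← hDef]
    refine mul_le_mul_of_nonneg_left (prod_exp PK X h.X1 (fun p hp => (h.pk p hp).2.1) _ _
      (by positivity) hD0 h.ck hD2) ?_
    have : 0 < ℓ := by rw [hℓ]; linarith
    positivity
  rw [hsum, hcard, ← hDef]
  have hlj0 : 0 < Real.log (j : ℝ) := by linarith
  have hℓpos : 0 < ℓ := by rw [hℓ]; linarith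
  have hD' : (0 : ℝ) ≤ D := Nat.cast_nonneg _
  rw [le_div_iff₀ (by positivity)]
  have hpow : (Real.log (j : ℝ)) ^ 3 ≤ ℓ ^ 3 := pow_le_pow_left₀ hlj0.le (by rw [hℓ]; exact hlN1) 3
  have htot : (∑ n ∈ Tb, ∏ p ∈ n.primeFactors, g p) + ∑ n ∈ Tc, ∏ p ∈ n.primeFactors, g p ≤
      6 * (C * 3 ^ 8 / ℓ ^ 7 + ℓ * Real.exp (-Real.sqrt ℓ)) * D := by linarith
  have hnn : 0 ≤ 6 * (C * 3 ^ 8 / ℓ ^ 7 + ℓ * Real.exp (-Real.sqrt ℓ)) * D := by positivity
  calc ((∑ n ∈ Tb, ∏ p ∈ n.primeFactors, g p) + ∑ n ∈ Tc, ∏ p ∈ n.primeFactors, g p) *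
        (Real.log (j : ℝ)) ^ 3
      ≤ (6 * (C * 3 ^ 8 / ℓ ^ 7 + ℓ * Real.exp (-Real.sqrt ℓ)) * D) * (Real.log (j : ℝ)) ^ 3 :=
        mul_le_mul_of_nonneg_right htot (by positivity)
    _ ≤ (6 * (C * 3 ^ 8 / ℓ ^ 7 + ℓ * Real.exp (-Real.sqrt ℓ)) * D) * ℓ ^ 3 :=
        mul_le_mul_of_nonneg_left hpow hnn
    _ = 6 * (C * 3 ^ 8 / ℓ ^ 4 + ℓ ^ 4 * Real.exp (-Real.sqrt ℓ)) * D := by
        field_simp
    _ ≤ s * D := mul_le_mul_of_nonneg_right (by rw [hℓ]; exact hA2) hD'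

theorem log_ge_two {p : ℕ} (hp : 8 ≤ p) : 2 ≤ Real.log p := by
  have h8 : (8 : ℝ) ≤ p := by exact_mod_cast hp
  rw [Real.le_log_iff_exp_le (by linarith)]
  refine le_trans ?_ h8
  have h1 : Real.exp 2 = Real.exp 1 * Real.exp 1 := by rw [← Real.exp_add]; norm_num
  have h2 := Real.exp_one_lt_d9
  have h3 := Real.exp_pos 1
  rw [h1]
  nlinarith

theorem gg_rest {Q j₀ : ℕ} {a0 : ℕ → ℝ} (hj : 8 ≤ j₀) (hQ : 1 ≤ Q) {p : ℕ} (ha : a0 p = 0) :
    gg Q j₀ a0 p = 0 ∨ (2 ≤ Real.log p ∧ gg Q j₀ a0 p = 2 / (Real.log p) ^ 2) := by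
  unfold gg
  rw [if_neg (not_not.2 ha)]
  by_cases h : j₀ ^ (2 * Q) < p
  · right
    rw [if_pos h]
    refine ⟨log_ge_two ?_, rfl⟩
    have : j₀ ^ 1 ≤ j₀ ^ (2 * Q) := Nat.pow_le_pow_right (by omega) (by omega)
    rw [pow_one] at this
    omega
  · left
    rw [if_neg h]

theorem base_mono {C₁ : ℝ} {X : ℕ → ℕ} {P0 : ℕ → Finset ℕ} {a0 : ℕ → ℝ} (hB : Base C₁ X P0 a0) :
    StrictMono X := by
  apply strictMono_nat_of_lt_succ
  intro i
  have h1 := hB.tower i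
  have h2 : (X i : ℝ) ≤ (X i : ℝ) ^ 2 := by
    have : X i ≤ X i ^ 2 := by nlinarith [Nat.zero_le (X i), sq_nonneg (X i), Nat.le_self_pow (two_ne_zero) (X i)]
    exact_mod_cast this
  have h3 := Real.add_one_le_exp ((X i : ℝ) ^ 2)
  have h4 := Real.add_one_le_exp (Real.exp ((X i : ℝ) ^ 2))
  have h5 : (X i : ℝ) < X (i + 1) := by linarith
  exact_mod_cast h5

theorem DD_le {X : ℕ} (h7 : 7 ≤ Real.log X) : 0 < DD X ∧ DD X ≤ X := by
  have hX0 : (0 : ℝ) < X := by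
    rcases Nat.eq_zero_or_pos X with h0 | h0
    · rw [h0] at h7; norm_num at h7
    · exact_mod_cast h0
  obtain ⟨W, hW⟩ : ∃ W : ℝ, W = Real.log X := ⟨_, rfl⟩
  have hXW : (X : ℝ) = Real.exp W := by rw [hW, Real.exp_log hX0]
  unfold DD
  rw [← hW] at h7 ⊢
  have hW0 : 0 < W := by linarith
  refine ⟨by positivity, ?_⟩
  rw [hXW, div_le_iff₀ (by positivity)]
  have h1 : 2 * Real.sqrt W ≤ W := by
    have h2 : Real.sqrt W ≤ W / 2 := by
      apply Real.sqrt_le_iff.2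
      exact ⟨by linarith, by nlinarith⟩
    linarith
  have h2 := Real.exp_le_exp.2 h1
  have h3 := Real.exp_pos W
  have h4 : 1 ≤ W ^ 2 := by nlinarith
  nlinarith

theorem AA_le {X : ℕ} (h7 : 7 ≤ Real.log X) : AA X ≤ X := by
  have hX0 : (0 : ℝ) < X := by
    rcases Nat.eq_zero_or_pos X with h0 | h0
    · rw [h0] at h7; norm_num at h7
    · exact_mod_cast h0
  unfold AA
  rw [← Real.le_log_iff_exp_le hX0]
  apply Real.sqrt_le_iff.2
  exact ⟨by linarith, by nlinarith⟩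

theorem twoY {Y : ℕ} (h7 : 7 ≤ Real.log Y) : ((2 * Y : ℕ) : ℝ) ^ (2 * Y) ≤ Real.exp ((Y : ℝ) ^ 2) := by
  have hX0 : (0 : ℝ) < Y := by
    rcases Nat.eq_zero_or_pos Y with h0 | h0
    · rw [h0] at h7; norm_num at h7
    · exact_mod_cast h0
  obtain ⟨W, hW⟩ : ∃ W : ℝ, W = Real.log Y := ⟨_, rfl⟩
  have hYW : (Y : ℝ) = Real.exp W := by rw [hW, Real.exp_log hX0]
  have h1 : ((2 * Y : ℕ) : ℝ) = Real.exp (Real.log (2 * Y)) := by
    rw [Real.exp_log (by positivity)]; push_cast; rfl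
  rw [h1, ← Real.exp_nat_mul, Real.exp_le_exp, Real.log_mul (by norm_num) hX0.ne', ← hW]
  rw [← hW] at h7
  have h2 := Real.quadratic_le_exp_of_nonneg (x := W) (by linarith)
  rw [← hYW] at h2
  have h3 := Real.log_two_lt_d9
  push_cast
  have h4 : 2 * (Real.log 2 + W) ≤ Y := by nlinarith
  nlinarith

theorem taskSm : TaskSm := by
  classical
  intro _ hsmo
  obtain ⟨C, hC, hsmo⟩ := hsmo
  refine ⟨10, fun Q hQ s hs => ?_⟩
  obtain ⟨J₁, hJ₁⟩ := core C hC hsmo s hs Q hQ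
  obtain ⟨X₀, hX₀1, hX₀⟩ := exists_X
  refine ⟨max J₁ (max 8 (X₀ ^ 128 + 1)), fun j₀ hj₀ C₁ X P0 a0 hB hX0 j hj T hT hTn => ?_⟩
  have hj1 : J₁ ≤ j := (le_of_max_le_left hj₀).trans hj
  have hj8 : 8 ≤ j₀ := le_of_max_le_left (le_of_max_le_right hj₀)
  have hjX : X₀ ^ 128 + 1 ≤ j₀ := le_of_max_le_right (le_of_max_le_right hj₀)
  have hmono := base_mono hB
  have hjQ : ∀ i : ℕ, 1 ≤ i → i ≤ i ^ (2 * Q) := fun i hi => by
    calc i = i ^ 1 := (pow_one i).symm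
      _ ≤ i ^ (2 * Q) := Nat.pow_le_pow_right hi (by omega)
  have hXall : ∀ i, X₀ ≤ X i := by
    intro i
    have h1 : X₀ ≤ X₀ ^ 128 := Nat.le_self_pow (by norm_num) X₀
    have h2 := hjQ j₀ (by omega)
    have h3 := hmono.monotone (Nat.zero_le i)
    omega
  have hwin : ∀ p : ℕ, a0 p ≠ 0 → ∃ i, p ∈ P0 i ∧ X i < p := by
    intro p hp
    by_contra hcon
    push Not at hcon
    apply hp
    apply hB.off
    intro i hi
    have h1 := hcon i hi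
    have h2 := (hB.mem i p hi).2.1
    omega
  have hgg : ∀ i, ∀ p ∈ P0 i, gg Q j₀ a0 p = AA (X i) := by
    intro i p hp
    unfold gg
    have h1 := hB.val i p hp
    have h2 : 0 < AA (X i) := lt_of_lt_of_le one_pos AA_one
    rw [if_pos (by rw [h1]; exact h2.ne'), h1]
  have hN8 : 8 ≤ j ^ (2 * Q) := by
    have := hjQ j (by omega)
    omega
  suffices hctx : ∃ (PK PL : Finset ℕ) (Y : ℕ), Ctx (j ^ (2 * Q)) (gg Q j₀ a0) PK PL Y by
    obtain ⟨PK, PL, Y, h⟩ := hctx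
    exact hJ₁ j hj1 _ PK PL Y h T hT (fun n hn => ⟨(hTn n hn).1, (hTn n hn).2.2⟩)
  by_cases hex : ∃ i, X i ^ 128 < j ^ (2 * Q)
  · obtain ⟨i₀, hi₀⟩ := hex
    have hle : ∀ i, X i ^ 128 < j ^ (2 * Q) → i ≤ j ^ (2 * Q) := by
      intro i hi
      have h1 : i ≤ X i := hmono.le_apply
      have h2 : X i ≤ X i ^ 128 := Nat.le_self_pow (by norm_num) _
      omega
    obtain ⟨K, hK⟩ : ∃ K, K = Nat.findGreatest (fun i => X i ^ 128 < j ^ (2 * Q)) (j ^ (2 * Q)) :=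
      ⟨_, rfl⟩
    have hKs : X K ^ 128 < j ^ (2 * Q) := by
      rw [hK]
      exact Nat.findGreatest_spec (P := fun i => X i ^ 128 < j ^ (2 * Q)) (hle i₀ hi₀) hi₀
    have hKm : ∀ i, X i ^ 128 < j ^ (2 * Q) → i ≤ K := by
      intro i hi
      rw [hK]
      exact Nat.le_findGreatest (P := fun i => X i ^ 128 < j ^ (2 * Q)) (hle i hi) hi
    obtain ⟨hK7, hKe⟩ := hX₀ (X K) (hXall K)
    obtain ⟨hD0, hD1⟩ := DD_le hK7
    have hXK0 : 1 ≤ X K := hX₀1.trans (hXall K)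
    have hlogK := log128 hXK0 hKs
    have hlog1 : 1 ≤ Real.log ((j ^ (2 * Q) : ℕ) : ℝ) := by linarith
    -- bound of the lower windows
    have hlow : ∀ k, K = k + 1 → Real.exp ((X k : ℝ) ^ 2) ≤ Real.log ((j ^ (2 * Q) : ℕ) : ℝ) := by
      intro k hk
      have h1 := hB.tower k
      rw [← hk] at h1
      have h2 := Real.log_le_log (Real.exp_pos _) h1
      rw [Real.log_exp] at h2
      linarith
    have hPLm : ∀ p ∈ (range K).biUnion P0, ∃ i, i < K ∧ p ∈ P0 i := by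
      intro p hp
      rw [Finset.mem_biUnion] at hp
      obtain ⟨i, hi, hp⟩ := hp
      exact ⟨i, Finset.mem_range.1 hi, hp⟩
    have hPL : ∀ f : ℕ → ℝ, (∀ i, i < K → ∀ p ∈ P0 i, 0 ≤ f p ∧ f p ≤ 2 * X i) →
        ∏ p ∈ (range K).biUnion P0, f p ≤ Real.log ((j ^ (2 * Q) : ℕ) : ℝ) := by
      intro f hf
      rcases Nat.eq_zero_or_pos K with h0 | h0
      · rw [h0]
        simp only [Finset.range_zero, Finset.biUnion_empty, Finset.prod_empty]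
        exact hlog1
      · obtain ⟨k, hk⟩ : ∃ k, K = k + 1 := ⟨K - 1, by omega⟩
        refine le_trans ?_ (hlow k hk)
        have hk7 := (hX₀ (X k) (hXall k)).1
        refine le_trans ?_ (twoY hk7)
        have hXk1 : 1 ≤ X k := hX₀1.trans (hXall k)
        have h1 : ∏ p ∈ (range K).biUnion P0, f p ≤
            ∏ _p ∈ (range K).biUnion P0, ((2 * X k : ℕ) : ℝ) := by
          refine Finset.prod_le_prod (fun p hp => ?_) (fun p hp => ?_)
          · obtain ⟨i, hi, hp⟩ := hPLm p hp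
            exact (hf i hi p hp).1
          · obtain ⟨i, hi, hp⟩ := hPLm p hp
            refine (hf i hi p hp).2.trans ?_
            have h2 : X i ≤ X k := hmono.monotone (by omega)
            push_cast
            have h3 : (X i : ℝ) ≤ X k := by exact_mod_cast h2
            linarith
        refine h1.trans ?_
        rw [Finset.prod_const]
        apply pow_le_pow_right₀
        · have : 1 ≤ 2 * X k := by omega
          exact_mod_cast this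
        · have h2 : (range K).biUnion P0 ⊆ Ioc 0 (2 * X k) := by
            intro p hp
            obtain ⟨i, hi, hp⟩ := hPLm p hp
            have h3 := hB.mem i p hp
            have h4 : X i ≤ X k := hmono.monotone (by omega)
            rw [Finset.mem_Ioc]
            exact ⟨h3.1.pos, by omega⟩
          have h3 := Finset.card_le_card h2
          rw [Nat.card_Ioc, Nat.sub_zero] at h3
          exact h3
    refine ⟨P0 K, (range K).biUnion P0, X K, hK7, hKe, hKs, ?_, ?_, ?_, ?_, ?_, ?_⟩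
    · intro p hp
      have h1 := hB.mem K p hp
      exact ⟨h1.1, h1.2.1, h1.2.2, hgg K p hp⟩
    · have h1 := hB.sparse K (X K) (X K)
      have h2 : (Ioc (X K) (X K + X K)).filter (fun p => p ∈ P0 K) = P0 K := by
        ext p
        rw [Finset.mem_filter, Finset.mem_Ioc]
        constructor
        · exact fun h => h.2
        · intro h
          have h3 := hB.mem K p h
          exact ⟨⟨h3.2.1, by omega⟩, h⟩
      rw [h2] at h1
      have h3 : (1 : ℝ) ≤ X K / DD (X K) := by rw [le_div_iff₀ hD0]; linarith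
      have h4 : 2 * (X K : ℝ) / DD (X K) = X K / DD (X K) + X K / DD (X K) := by ring
      linarith
    · intro p hp
      obtain ⟨i, hi, hp⟩ := hPLm p hp
      rw [hgg i p hp]
      exact ⟨(hB.mem i p hp).1, AA_one⟩
    · apply hPL (fun p => (p : ℝ))
      intro i _ p hp
      exact ⟨Nat.cast_nonneg _, by exact_mod_cast (hB.mem i p hp).2.2⟩
    · apply hPL
      intro i _ p hp
      rw [hgg i p hp]
      have h1 := AA_le (hX₀ (X i) (hXall i)).1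
      have h2 : (0 : ℝ) ≤ X i := Nat.cast_nonneg _
      exact ⟨zero_le_one.trans AA_one, by linarith⟩
    · intro p hp h1 h2 h3
      refine gg_rest hj8 (by omega) ?_
      by_contra ha
      obtain ⟨i, hi, hXi⟩ := hwin p ha
      have h4 : X i ^ 128 < j ^ (2 * Q) :=
        lt_of_le_of_lt (Nat.pow_le_pow_left hXi.le 128) h3
      have h5 := hKm i h4
      rcases Nat.lt_or_ge i K with h6 | h6
      · exact h2 (Finset.mem_biUnion.2 ⟨i, Finset.mem_range.2 h6, hi⟩)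
      · have h7 : i = K := by omega
        rw [h7] at hi
        exact h1 hi
  · push Not at hex
    obtain ⟨h7, he⟩ := hX₀ X₀ le_rfl
    have hXN : X₀ ^ 128 < j ^ (2 * Q) := by
      have := hjQ j (by omega)
      omega
    have hlog := log128 hX₀1 hXN
    refine ⟨∅, ∅, X₀, h7, he, hXN, ?_, ?_, ?_, ?_, ?_, ?_⟩
    · intro p hp; simp at hp
    · have := (DD_le h7).1
      simp only [Finset.card_empty, Nat.cast_zero]
      positivity
    · intro p hp; simp at hp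
    · simp only [Finset.prod_empty]
      linarith
    · simp only [Finset.prod_empty]
      linarith
    · intro p hp h1 h2 h3
      refine gg_rest hj8 (by omega) ?_
      by_contra ha
      obtain ⟨i, hi, hXi⟩ := hwin p ha
      have h4 : X i ^ 128 < j ^ (2 * Q) :=
        lt_of_le_of_lt (Nat.pow_le_pow_left hXi.le 128) h3
      exact absurd h4 (not_lt.2 (hex i))

end Pool.Agent.H929R3.BCSM
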