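import Pool.Agent.H929R3.Num

set_option autoImplicit false

/-!
# The hypergraph and its induced embedding into a finite abelian group
-/

namespace Pool.Agent.H929R3

/-- The group. -/
abbrev GG (N : ℕ) : Type := ZMod N × ZMod 3 × ZMod 7

/-- The modulus property. -/
def Good (K N : ℕ) : Prop :=
  ∀ i j l : ℕ, i ≤ K → j ≤ K → l ≤ K →
    ((-2 : ZMod N) ^ i + (-2) ^ j + (-2) ^ l = 0) → Triv i j l

theorem Good.inj {K N : ℕ} (h : Good K N) {i j : ℕ} (hi : i ≤ K) (hj : j ≤ K)
    (hij : (-2 : ZMod N) ^ i = (-2) ^ j) : i = j := by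
  have main : ∀ i j : ℕ, i ≤ K → j ≤ K → (-2 : ZMod N) ^ i = (-2) ^ j → ¬ i < j := by
    intro i j _ hj hij hlt
    have h1 : (-2 : ZMod N) ^ (i + 1) + (-2) ^ i + (-2) ^ j = 0 := by
      rw [← hij, pow_succ]; ring
    obtain ⟨k, hk⟩ := h (i + 1) i j (by omega) (by omega) hj h1
    omega
  rcases lt_trichotomy i j with h1 | h1 | h1
  · exact absurd h1 (main i j hi hj hij)
  · exact h1
  · exact absurd h1 (main j i hj hi hij.symm)

/-- Indices of rows. -/
inductive Ix
  | ch (c : Fin 3) (j : ℕ) (s : Bool)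
  | gd (e : Bool) (i : Fin 3) (s : Bool)

/-- Indices of vertices. -/
inductive Vx
  | V (j : ℕ) (s : Bool)
  | g (e : Bool) (t : Bool)

open Ix Vx

/-- Row indices in range. -/
def Ok (K : ℕ) : Ix → Prop
  | ch _ j _ => j < K
  | gd _ _ _ => True

/-- Vertex indices in range. -/
def OkV (K : ℕ) : Vx → Prop
  | V j _ => j ≤ K
  | g _ _ => True

/-- End points of the chain. -/
def endp (K : ℕ) (e : Bool) : ℕ := cond e K 0

/-- the gadget vertices of a gadget row (away from its chain vertex) -/
def gv (i c : Fin 3) (s : Bool) : Bool :=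
  if i = 0 then (if c = 1 then false else !s)
  else if i = 1 then s
  else (if c = 0 then !s else true)

/-- the vertex of color `c` of a row -/
def bd (K : ℕ) (c : Fin 3) : Ix → Vx
  | ch c' j s => if c = c' then V (j + 1) s else V j s
  | gd e i s => if c = i then V (endp K e) s else g e (gv i c s)

/-- second coordinate -/
def sv (s : Bool) : ZMod 3 := cond s 1 0

/-- third coordinate -/
def ep (e : Bool) : ZMod 7 := cond e 1 3

/-- First coordinate of the embedding of the vertices. -/
def p1 (K N : ℕ) (c : Fin 3) : Vx → ZMod N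
  | V j _ => (-2) ^ j
  | g e t => if c = 0 then 0 else if c = 1 then cond t (-(-2) ^ endp K e) 0
      else -(-2) ^ endp K e

/-- Second coordinate of the embedding of the vertices. -/
def p2 (c : Fin 3) : Vx → ZMod 3
  | V _ s => sv s
  | g _ t => if c = 1 then 2 else sv t

/-- Third coordinate of the embedding of the vertices. -/
def p3 (c : Fin 3) : Vx → ZMod 7
  | V _ _ => 0
  | g e t => if c = 0 then ep e else if c = 1 then cond t (- ep e) (ep e) else - ep e

/-- The embedding of the vertices. -/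
def psi (K N : ℕ) (c : Fin 3) (v : Vx) : GG N := (p1 K N c v, p2 c v, p3 c v)

theorem f_sv : ∀ s s' : Bool, sv s = sv s' → s = s' := by decide
theorem f_p3 : ∀ (c : Fin 3) (e t : Bool), p3 c (g e t) ≠ 0 := by decide
theorem f_gg : ∀ (c : Fin 3) (e t e' t' : Bool), p3 c (g e t) = p3 c (g e' t') →
    p2 c (g e t) = p2 c (g e' t') → e = e' ∧ t = t' := by decide
theorem f_sss : ∀ s0 s1 s2 : Bool, sv s0 + sv s1 + sv s2 = 0 → s0 = s1 ∧ s1 = s2 := by decide
theorem f_Vgg : ∀ s0 e t e' t' : Bool, sv s0 + p2 1 (g e t) + p2 2 (g e' t') = 0 →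
    0 + p3 1 (g e t) + p3 2 (g e' t') = 0 → t = false ∧ e = e' ∧ t' = !s0 := by decide
theorem f_gVg : ∀ s1 e t e' t' : Bool, p2 0 (g e t) + sv s1 + p2 2 (g e' t') = 0 →
    p3 0 (g e t) + 0 + p3 2 (g e' t') = 0 → e = e' ∧ t = s1 ∧ t' = s1 := by decide
theorem f_ggV : ∀ s2 e t e' t' : Bool, p2 0 (g e t) + p2 1 (g e' t') + sv s2 = 0 →
    p3 0 (g e t) + p3 1 (g e' t') + 0 = 0 → t' = true ∧ e = e' ∧ t = !s2 := by decide
theorem f_ggg : ∀ e t e' t' e'' t'' : Bool,
    p3 0 (g e t) + p3 1 (g e' t') + p3 2 (g e'' t'') ≠ 0 := by decide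

theorem bd_ch_same (K : ℕ) (c : Fin 3) (j : ℕ) (s : Bool) : bd K c (ch c j s) = V (j + 1) s := by
  simp [bd]
theorem bd_ch_ne (K : ℕ) {c c' : Fin 3} (h : c ≠ c') (j : ℕ) (s : Bool) :
    bd K c (ch c' j s) = V j s := by
  simp [bd, h]
theorem bd_gd_same (K : ℕ) (e : Bool) (i : Fin 3) (s : Bool) :
    bd K i (gd e i s) = V (endp K e) s := by
  simp [bd]
theorem bd_gd_ne (K : ℕ) (e : Bool) {c i : Fin 3} (h : c ≠ i) (s : Bool) :
    bd K c (gd e i s) = g e (gv i c s) := by
  simp [bd, h]

theorem OkV_bd {K : ℕ} (c : Fin 3) (ix : Ix) (h : Ok K ix) : OkV K (bd K c ix) := by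
  cases ix with
  | ch c' j s =>
    have h' : j < K := h
    simp only [bd]
    split_ifs
    · show j + 1 ≤ K; omega
    · show j ≤ K; omega
  | gd e i s =>
    simp only [bd]
    split_ifs
    · cases e
      · exact Nat.zero_le K
      · exact le_rfl
    · trivial

theorem psi_sum (K N : ℕ) (ix : Ix) :
    psi K N 0 (bd K 0 ix) + psi K N 1 (bd K 1 ix) + psi K N 2 (bd K 2 ix) = 0 := by
  have h3 : ∀ s : Bool, sv s + sv s + sv s = 0 := by decide
  cases ix with
  | ch c j s =>
    fin_cases c
    · simp only [bd, psi]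
      refine Prod.ext ?_ (Prod.ext ?_ ?_)
      · simp [p1, pow_succ]; ring
      · exact h3 s
      · simp [p3]
    · simp only [bd, psi]
      refine Prod.ext ?_ (Prod.ext ?_ ?_)
      · simp [p1, pow_succ]; ring
      · exact h3 s
      · simp [p3]
    · simp only [bd, psi]
      refine Prod.ext ?_ (Prod.ext ?_ ?_)
      · simp [p1, pow_succ]; ring
      · exact h3 s
      · simp [p3]
  | gd e i s =>
    fin_cases i <;> cases s <;>
    · simp only [bd, psi, gv]
      refine Prod.ext ?_ (Prod.ext ?_ ?_)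
      · simp [p1]
      · simp [p2, sv]; try decide
      · simp [p3]

theorem psi_inj {K N : ℕ} (hG : Good K N) (c : Fin 3) {v v' : Vx} (hv : OkV K v)
    (hv' : OkV K v') (h : psi K N c v = psi K N c v') : v = v' := by
  simp only [psi, Prod.mk.injEq] at h
  obtain ⟨h1, h2, h3⟩ := h
  cases v with
  | V j s =>
    cases v' with
    | V j' s' =>
      rw [hG.inj hv hv' h1, f_sv s s' h2]
    | g e t => exact absurd h3.symm (f_p3 c e t)
  | g e t =>
    cases v' with
    | V j' s' => exact absurd h3 (f_p3 c e t)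
    | g e' t' =>
      obtain ⟨rfl, rfl⟩ := f_gg c e t e' t' h3 h2
      rfl

/-- No unexpected zero-sum triples. -/
theorem no_extra {K N : ℕ} (hG : Good K N) {v0 v1 v2 : Vx} (h0 : OkV K v0) (h1 : OkV K v1)
    (h2 : OkV K v2) (h : psi K N 0 v0 + psi K N 1 v1 + psi K N 2 v2 = 0) :
    ∃ ix, Ok K ix ∧ bd K 0 ix = v0 ∧ bd K 1 ix = v1 ∧ bd K 2 ix = v2 := by
  have e1 : p1 K N 0 v0 + p1 K N 1 v1 + p1 K N 2 v2 = 0 := congrArg (fun x => x.1) h
  have e2 : p2 0 v0 + p2 1 v1 + p2 2 v2 = 0 := congrArg (fun x => x.2.1) h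
  have e3 : p3 0 v0 + p3 1 v1 + p3 2 v2 = 0 := congrArg (fun x => x.2.2) h
  clear h
  have hend : ∀ e, endp K e ≤ K := by intro e; cases e <;> simp [endp]
  cases v0 with
  | V i s0 =>
    cases v1 with
    | V j s1 =>
      cases v2 with
      | V l s2 =>
        obtain ⟨k, hk⟩ := hG i j l h0 h1 h2 e1
        obtain ⟨rfl, rfl⟩ := f_sss s0 s1 s2 e2
        have h0' : i ≤ K := h0
        have h1' : j ≤ K := h1
        have h2' : l ≤ K := h2
        rcases hk with ⟨rfl, rfl, rfl⟩ | ⟨rfl, rfl, rfl⟩ | ⟨rfl, rfl, rfl⟩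
        · exact ⟨ch 0 _ s0, by show _ < K; omega, rfl, rfl, rfl⟩
        · exact ⟨ch 1 _ s0, by show _ < K; omega, rfl, rfl, rfl⟩
        · exact ⟨ch 2 _ s0, by show _ < K; omega, rfl, rfl, rfl⟩
      | g e t =>
        exfalso
        have : p3 2 (g e t) = 0 := by simpa [p3] using e3
        exact f_p3 2 e t this
    | g e t =>
      cases v2 with
      | V l s2 =>
        exfalso
        have : p3 1 (g e t) = 0 := by
          have h5 : (0 : ZMod 7) + p3 1 (g e t) + 0 = 0 := e3
          rwa [zero_add, add_zero] at h5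
        exact f_p3 1 e t this
      | g e' t' =>
        obtain ⟨rfl, rfl, rfl⟩ := f_Vgg s0 e t e' t' e2 e3
        have e1' : (-2 : ZMod N) ^ i + 0 + (-(-2) ^ endp K e) = 0 := e1
        have h5 : i = endp K e := hG.inj h0 (hend e) (by linear_combination e1')
        subst h5
        exact ⟨gd e 0 s0, trivial, rfl, rfl, rfl⟩
  | g e t =>
    cases v1 with
    | V j s1 =>
      cases v2 with
      | V l s2 =>
        exfalso
        have : p3 0 (g e t) = 0 := by
          have h5 : p3 0 (g e t) + 0 + 0 = 0 := e3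
          rwa [add_zero, add_zero] at h5
        exact f_p3 0 e t this
      | g e' t' =>
        obtain ⟨rfl, rfl, rfl⟩ := f_gVg s1 e t e' t' e2 e3
        have e1' : (0 : ZMod N) + (-2) ^ j + (-(-2) ^ endp K e) = 0 := e1
        have h5 : j = endp K e := hG.inj h1 (hend e) (by linear_combination e1')
        subst h5
        exact ⟨gd e 1 _, trivial, rfl, rfl, rfl⟩
    | g e' t' =>
      cases v2 with
      | V l s2 =>
        obtain ⟨rfl, rfl, rfl⟩ := f_ggV s2 e t e' t' e2 e3
        have e1' : (0 : ZMod N) + (-(-2) ^ endp K e) + (-2) ^ l = 0 := e1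
        have h5 : l = endp K e := hG.inj h2 (hend e) (by linear_combination e1')
        subst h5
        exact ⟨gd e 2 s2, trivial, rfl, rfl, rfl⟩
      | g e'' t'' =>
        exact absurd e3 (f_ggg e t e' t' e'' t'')

/-- A row index is determined by its three vertices. -/
theorem bd_inj {K : ℕ} (hK : 1 ≤ K) {ix ix' : Ix} (h : ∀ c, bd K c ix = bd K c ix') :
    ix = ix' := by
  have hend : ∀ e e', endp K e = endp K e' → e = e' := by
    intro e e' h
    cases e <;> cases e' <;> simp [endp] at h ⊢ <;> omega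
  have hne : ∀ i : Fin 3, i + 1 ≠ i := by decide
  have hmix : ∀ c j s e i s', ¬ (∀ c1, bd K c1 (ch c j s) = bd K c1 (gd e i s')) := by
    intro c j s e i s' h
    have h1 := h (i + 1)
    rw [bd_gd_ne K e (hne i)] at h1
    by_cases h2 : i + 1 = c
    · subst h2
      rw [bd_ch_same] at h1
      injection h1
    · rw [bd_ch_ne K h2] at h1
      injection h1
  cases ix with
  | ch c j s =>
    cases ix' with
    | ch c' j' s' =>
      by_cases hc : c = c'
      · subst hc
        have := h c
        rw [bd_ch_same, bd_ch_same] at this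
        injection this with h1 h2
        rw [h2, Nat.succ_injective h1]
      · exfalso
        have h1 := h c
        have h2 := h c'
        rw [bd_ch_same, bd_ch_ne K hc] at h1
        rw [bd_ch_same, bd_ch_ne K (Ne.symm hc)] at h2
        injection h1 with h3 h4
        injection h2 with h5 h6
        omega
    | gd e i s' => exact absurd h (hmix _ _ _ _ _ _)
  | gd e i s =>
    cases ix' with
    | ch c' j' s' => exact absurd (fun c => (h c).symm) (hmix _ _ _ _ _ _)
    | gd e' i' s' =>
      by_cases hc : i = i'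
      · subst hc
        have h1 := h i
        rw [bd_gd_same, bd_gd_same] at h1
        injection h1 with h3 h4
        rw [hend _ _ h3, h4]
      · exfalso
        have h1 := h i
        rw [bd_gd_same, bd_gd_ne K e' hc] at h1
        injection h1

end Pool.Agent.H929R3
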