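import Pool.Agent.H929R3.Ker
import Pool.Agent.H929R3.Toric

set_option autoImplicit false

/-!
# The two tables and their fibre
-/

namespace Pool.Agent.H929R3

open Ix Vx

/-- Exponent vectors of the tripod, rows given by their first two entries. -/
noncomputable def E0 {G : Type} [AddCommGroup G] (r : G × G) : (Fin 3 × G) →₀ ℕ :=
  ∑ c : Fin 3, Finsupp.single (c, co c r) 1

theorem E0_apply {G : Type} [AddCommGroup G] [DecidableEq G] (r : G × G) (c : Fin 3) (x : G) :
    E0 r (c, x) = if co c r = x then 1 else 0 := by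
  classical
  unfold E0
  rw [Finsupp.finsetSum_apply, Finset.sum_eq_single c]
  · simp [Finsupp.single_apply]
  · intro b _ hb
    simp [hb]
  · intro h; exact absurd (Finset.mem_univ _) h

theorem lin_apply {G : Type} [AddCommGroup G] [Fintype G] [DecidableEq G]
    (M : (G × G) →₀ ℕ) (c : Fin 3) (x : G) :
    lin E0 M (c, x) = ∑ r : G × G, if co c r = x then M r else 0 := by
  classical
  rw [lin, Finsupp.linearCombination_apply, Finsupp.sum_fintype _ _ (by simp),
    Finsupp.finsetSum_apply]
  refine Finset.sum_congr rfl fun r _ => ?_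
  rw [Finsupp.smul_apply, E0_apply]
  split_ifs <;> simp

theorem marg_cast {G : Type} [AddCommGroup G] [Fintype G] [DecidableEq G]
    (M : (G × G) →₀ ℕ) (c : Fin 3) (x : G) :
    marg (fun r => (M r : ℤ)) c x = (lin E0 M (c, x) : ℕ) := by
  rw [lin_apply, marg]
  push_cast
  refine Finset.sum_congr rfl fun r _ => ?_
  split_ifs <;> rfl

/-- sum of the three chain vertices at a level -/
noncomputable def PP (K N j : ℕ) (s : Bool) : (Fin 3 × GG N) →₀ ℕ :=
  ∑ c : Fin 3, Finsupp.single (c, psi K N c (V j s)) 1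

/-- sum of the gadget vertices -/
noncomputable def GA (K N : ℕ) (e : Bool) : (Fin 3 × GG N) →₀ ℕ :=
  ∑ c : Fin 3, (Finsupp.single (c, psi K N c (g e false)) 1 +
    Finsupp.single (c, psi K N c (g e true)) 1)

theorem lin_row (K N : ℕ) (ix : Ix) (k : ℕ) :
    lin E0 (Finsupp.single (row K N ix) k) =
      k • ∑ c : Fin 3, Finsupp.single (c, psi K N c (bd K c ix)) 1 := by
  rw [lin, Finsupp.linearCombination_single, E0]
  congr 1
  refine Finset.sum_congr rfl fun c _ => ?_
  rw [co_row]

/-- chain part -/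
noncomputable def CC (K N j : ℕ) (s : Bool) : (GG N × GG N) →₀ ℕ :=
  ∑ c : Fin 3, Finsupp.single (row K N (ch c j s)) 1

/-- gadget part -/
noncomputable def DD (K N : ℕ) (e s : Bool) : (GG N × GG N) →₀ ℕ :=
  ∑ i : Fin 3, Finsupp.single (row K N (gd e i s)) 1

theorem lin_CC (K N j : ℕ) (s : Bool) :
    lin E0 (CC K N j s) = PP K N (j + 1) s + 2 • PP K N j s := by
  unfold CC PP
  rw [map_sum]
  simp only [lin_row, one_smul, Fin.sum_univ_three, bd_ch_same]
  rw [bd_ch_ne K (show (1 : Fin 3) ≠ 0 by decide), bd_ch_ne K (show (2 : Fin 3) ≠ 0 by decide),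
    bd_ch_ne K (show (0 : Fin 3) ≠ 1 by decide), bd_ch_ne K (show (2 : Fin 3) ≠ 1 by decide),
    bd_ch_ne K (show (0 : Fin 3) ≠ 2 by decide), bd_ch_ne K (show (1 : Fin 3) ≠ 2 by decide)]
  rw [two_smul]
  abel

theorem lin_DD (K N : ℕ) (e s : Bool) :
    lin E0 (DD K N e s) = PP K N (endp K e) s + GA K N e := by
  unfold DD PP GA
  rw [map_sum]
  simp only [lin_row, one_smul, Fin.sum_univ_three, bd_gd_same]
  rw [bd_gd_ne K e (show (1 : Fin 3) ≠ 0 by decide), bd_gd_ne K e (show (2 : Fin 3) ≠ 0 by decide),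
    bd_gd_ne K e (show (0 : Fin 3) ≠ 1 by decide), bd_gd_ne K e (show (2 : Fin 3) ≠ 1 by decide),
    bd_gd_ne K e (show (0 : Fin 3) ≠ 2 by decide), bd_gd_ne K e (show (1 : Fin 3) ≠ 2 by decide)]
  cases s
  · simp only [gv]
    simp
    abel
  · simp only [gv]
    simp
    abel

/-- the lower part of the tables -/
noncomputable def UU (K N : ℕ) : ℕ → Bool → ((GG N × GG N) →₀ ℕ)
  | 0, s => DD K N false s
  | j + 1, s => CC K N j s + 2 • UU K N j (!s)

/-- the tables -/
noncomputable def TT (K N : ℕ) (s : Bool) : (GG N × GG N) →₀ ℕ :=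
  DD K N true s + UU K N K (!s)

theorem lin_UU (K N : ℕ) (j : ℕ) :
    ∃ S, ∀ s, lin E0 (UU K N j s) = PP K N j s + S := by
  induction j with
  | zero => exact ⟨GA K N false, fun s => lin_DD K N false s⟩
  | succ j ih =>
    obtain ⟨S, hS⟩ := ih
    refine ⟨2 • (PP K N j false + PP K N j true + S), fun s => ?_⟩
    rw [UU, map_add, map_smul, lin_CC, hS]
    cases s
    · simp only [Bool.not_false, two_smul]
      abel
    · simp only [Bool.not_true, two_smul]
      abel

theorem lin_TT (K N : ℕ) : lin E0 (TT K N false) = lin E0 (TT K N true) := by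
  obtain ⟨S, hS⟩ := lin_UU K N K
  simp only [TT, map_add, lin_DD, hS]
  simp only [Bool.not_false, Bool.not_true]
  have h1 : endp K true = K := rfl
  rw [h1]
  abel

theorem degree_CC (K N j : ℕ) (s : Bool) : (CC K N j s).degree = 3 := by
  unfold CC
  rw [map_sum]
  simp [Finsupp.degree_single]

theorem degree_DD (K N : ℕ) (e s : Bool) : (DD K N e s).degree = 3 := by
  unfold DD
  rw [map_sum]
  simp [Finsupp.degree_single]

theorem degree_UU (K N : ℕ) (j : ℕ) : ∀ s, (UU K N j s).degree + 3 = 3 * 2 ^ (j + 1) := by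
  induction j with
  | zero => intro s; rw [UU, degree_DD]; norm_num
  | succ j ih =>
    intro s
    have h := ih (!s)
    rw [UU, map_add, degree_CC, map_nsmul, smul_eq_mul, pow_succ]
    omega

theorem degree_TT (K N : ℕ) (s : Bool) : (TT K N s).degree = 6 * 2 ^ K := by
  have h := degree_UU K N K (!s)
  rw [TT, map_add, degree_DD]
  rw [pow_succ] at h
  omega

/-- parity of a row index -/
def par (K : ℕ) : Ix → Bool
  | ch _ i s => xor s (!(Nat.bodd i))
  | gd e _ s => cond e (xor s (!(Nat.bodd K))) s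

/-- not in the top gadget -/
def low : Ix → Prop
  | ch _ _ _ => True
  | gd e _ _ => e = false

theorem supp_UU (K N : ℕ) (j : ℕ) (hj : j ≤ K) : ∀ s r, UU K N j s r ≠ 0 →
    ∃ ix, Ok K ix ∧ r = row K N ix ∧ low ix ∧ par K ix = xor s (Nat.bodd j) := by
  induction j with
  | zero =>
    intro s r hr
    rw [UU, DD, Finsupp.finsetSum_apply] at hr
    obtain ⟨i, _, hi⟩ := Finset.exists_ne_zero_of_sum_ne_zero hr
    refine ⟨gd false i s, trivial, ?_, rfl, ?_⟩
    · by_contra h
      rw [Finsupp.single_apply, if_neg (Ne.symm h)] at hi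
      exact hi rfl
    · simp [par]
  | succ j ih =>
    intro s r hr
    rw [UU, Finsupp.add_apply, Finsupp.smul_apply] at hr
    by_cases h1 : CC K N j s r = 0
    · have h2 : UU K N j (!s) r ≠ 0 := by
        intro h3
        rw [h1, h3] at hr
        simp at hr
      obtain ⟨ix, hok, hrow, hlow, hpar⟩ := ih (by omega) (!s) r h2
      refine ⟨ix, hok, hrow, hlow, ?_⟩
      rw [hpar, Nat.bodd_succ]
      cases s <;> cases Nat.bodd j <;> rfl
    · rw [CC, Finsupp.finsetSum_apply] at h1
      obtain ⟨c, _, hc⟩ := Finset.exists_ne_zero_of_sum_ne_zero h1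
      refine ⟨ch c j s, ?_, ?_, trivial, ?_⟩
      · show j < K; omega
      · by_contra h
        rw [Finsupp.single_apply, if_neg (Ne.symm h)] at hc
        exact hc rfl
      · rw [par, Nat.bodd_succ]

theorem supp_TT (K N : ℕ) (s : Bool) (r : GG N × GG N) (hr : TT K N s r ≠ 0) :
    ∃ ix, Ok K ix ∧ r = row K N ix ∧ par K ix = xor s (!(Nat.bodd K)) := by
  rw [TT, Finsupp.add_apply] at hr
  by_cases h1 : DD K N true s r = 0
  · have h2 : UU K N K (!s) r ≠ 0 := by
      intro h3
      rw [h1, h3] at hr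
      simp at hr
    obtain ⟨ix, hok, hrow, _, hpar⟩ := supp_UU K N K le_rfl (!s) r h2
    refine ⟨ix, hok, hrow, ?_⟩
    rw [hpar]
    cases s <;> cases Nat.bodd K <;> rfl
  · rw [DD, Finsupp.finsetSum_apply] at h1
    obtain ⟨i, _, hi⟩ := Finset.exists_ne_zero_of_sum_ne_zero h1
    refine ⟨gd true i s, trivial, ?_, rfl⟩
    by_contra h
    rw [Finsupp.single_apply, if_neg (Ne.symm h)] at hi
    exact hi rfl

theorem disj_TT {K N : ℕ} (hK : 1 ≤ K) (hG : Good K N) (r : GG N × GG N) :
    TT K N false r = 0 ∨ TT K N true r = 0 := by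
  by_contra hcon
  push Not at hcon
  obtain ⟨ix, hok, hrow, hpar⟩ := supp_TT K N false r hcon.1
  obtain ⟨ix', hok', hrow', hpar'⟩ := supp_TT K N true r hcon.2
  have h := row_inj hK hG hok hok' (hrow.symm.trans hrow')
  rw [h, hpar'] at hpar
  revert hpar
  cases Nat.bodd K <;> decide

theorem DD_apply {K N : ℕ} (hK : 1 ≤ K) (hG : Good K N) (e : Bool) (i : Fin 3) (s : Bool) :
    DD K N e s (row K N (gd e i s)) = 1 := by
  rw [DD, Finsupp.finsetSum_apply, Finset.sum_eq_single i]
  · simp
  · intro b _ hb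
    rw [Finsupp.single_apply, if_neg]
    intro h
    have := row_inj hK hG (ix := gd e b s) (ix' := gd e i s) trivial trivial h
    injection this with _ h2
    exact hb h2
  · intro h; exact absurd (Finset.mem_univ _) h

theorem TT_top {K N : ℕ} (hK : 1 ≤ K) (hG : Good K N) (s : Bool) (i : Fin 3) :
    TT K N s (row K N (gd true i s)) = 1 := by
  have h : UU K N K (!s) (row K N (gd true i s)) = 0 := by
    by_contra h
    obtain ⟨ix, hok, hrow, hlow, _⟩ := supp_UU K N K le_rfl (!s) _ h
    have := row_inj hK hG (ix := gd true i s) trivial hok hrow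
    rw [← this] at hlow
    simp [low] at hlow
  rw [TT, Finsupp.add_apply, h, DD_apply hK hG, add_zero]

/-- The additional row used for the affine chart. -/
def gz (K N : ℕ) : GG N × GG N := row K N (gd true 1 false)

theorem supp_M {K N : ℕ} [NeZero N] (hG : Good K N) (k : ℕ) (M : (GG N × GG N) →₀ ℕ)
    (hM : lin E0 M = lin E0 (TT K N false + Finsupp.single (gz K N) k)) (r : GG N × GG N)
    (hr : M r ≠ 0) : ∃ ix, Ok K ix ∧ r = row K N ix := by
  classical
  have h1 : ∀ c : Fin 3, ∃ v, OkV K v ∧ co c r = psi K N c v := by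
    intro c
    have h2 : lin E0 M (c, co c r) ≠ 0 := by
      rw [lin_apply]
      intro h
      have h3 := (Finset.sum_eq_zero_iff.mp h) r (Finset.mem_univ _)
      rw [if_pos rfl] at h3
      exact hr h3
    rw [hM, lin_apply] at h2
    obtain ⟨r', _, h3⟩ := Finset.exists_ne_zero_of_sum_ne_zero h2
    by_cases h4 : co c r' = co c r
    · rw [if_pos h4, Finsupp.add_apply] at h3
      by_cases h5 : TT K N false r' = 0
      · have h6 : r' = gz K N := by
          by_contra h7
          rw [h5, Finsupp.single_apply, if_neg (Ne.symm h7)] at h3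
          exact h3 rfl
        refine ⟨bd K c (gd true 1 false), OkV_bd c _ trivial, ?_⟩
        rw [← h4, h6, gz, co_row]
      · obtain ⟨ix, hok, hrow, _⟩ := supp_TT K N false r' h5
        refine ⟨bd K c ix, OkV_bd c _ hok, ?_⟩
        rw [← h4, hrow, co_row]
    · rw [if_neg h4] at h3
      exact absurd rfl h3
  obtain ⟨v0, o0, e0⟩ := h1 0
  obtain ⟨v1, o1, e1⟩ := h1 1
  obtain ⟨v2, o2, e2⟩ := h1 2
  have hsum : psi K N 0 v0 + psi K N 1 v1 + psi K N 2 v2 = 0 := by
    rw [← e0, ← e1, ← e2]
    show r.1 + r.2 + (- r.1 - r.2) = 0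
    abel
  obtain ⟨ix, hok, b0, b1, b2⟩ := no_extra hG o0 o1 o2 hsum
  refine ⟨ix, hok, co_ext fun c => ?_⟩
  rw [co_row]
  fin_cases c
  · exact e0.trans (congrArg _ b0.symm)
  · exact e1.trans (congrArg _ b1.symm)
  · exact e2.trans (congrArg _ b2.symm)

/-- The fibre of `T0 + k g0` consists of two elements. -/
theorem fibre {K N : ℕ} [NeZero N] (hK : 1 ≤ K) (hG : Good K N) (k : ℕ)
    (M : (GG N × GG N) →₀ ℕ)
    (hM : lin E0 M = lin E0 (TT K N false + Finsupp.single (gz K N) k)) :
    M = TT K N false + Finsupp.single (gz K N) k ∨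
      M = TT K N true + Finsupp.single (gz K N) k := by
  classical
  set T0 := TT K N false with hT0
  set T1 := TT K N true with hT1
  set r0 := row K N (gd true 0 false) with hr0
  have hne : gz K N ≠ r0 := by
    intro h
    have := row_inj hK hG (ix := gd true 1 false) (ix' := gd true 0 false) trivial trivial h
    injection this with _ h2
    exact absurd h2 (by decide)
  have hT00 : T0 r0 = 1 := TT_top hK hG false 0
  have hT10 : T1 r0 = 0 := by
    rcases disj_TT hK hG r0 with h | h
    · rw [← hT0, hT00] at h; exact absurd h one_ne_zero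
    · exact h
  have hgz0 : T0 (gz K N) = 1 := TT_top hK hG false 1
  have hgz1 : T1 (gz K N) = 0 := by
    rcases disj_TT hK hG (gz K N) with h | h
    · rw [← hT0, hgz0] at h; exact absurd h one_ne_zero
    · exact h
  set rp := row K N (gd true 0 true) with hrp
  have hp1 : T1 rp = 1 := TT_top hK hG true 0
  have hp0 : T0 rp = 0 := by
    rcases disj_TT hK hG rp with h | h
    · exact h
    · rw [← hT1, hp1] at h; exact absurd h one_ne_zero
  have hpg : gz K N ≠ rp := by
    intro h
    rw [h, hp0] at hgz0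
    exact absurd hgz0 (by norm_num)
  -- the kernel vector
  set a : ℤ := 1 - (M r0 : ℤ) with ha
  have hz : ∀ r, ((M r : ℤ) - T0 r - (Finsupp.single (gz K N) k r : ℕ)
      + a * ((T0 r : ℤ) - T1 r)) = 0 := by
    apply ker_zero hK hG
    · intro r hr
      by_cases h1 : M r = 0
      · by_cases h2 : T0 r = 0
        · by_cases h3 : T1 r = 0
          · by_cases h4 : r = gz K N
            · exact ⟨gd true 1 false, trivial, h4⟩
            · exfalso
              apply hr
              rw [h1, h2, h3, Finsupp.single_apply, if_neg (Ne.symm h4)]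
              simp
          · obtain ⟨ix, hok, hrow, _⟩ := supp_TT K N true r h3
            exact ⟨ix, hok, hrow⟩
        · obtain ⟨ix, hok, hrow, _⟩ := supp_TT K N false r h2
          exact ⟨ix, hok, hrow⟩
      · exact supp_M hG k M hM r h1
    · intro c x
      have e1 : marg (fun r => ((M r : ℤ) - T0 r - (Finsupp.single (gz K N) k r : ℕ)
          + a * ((T0 r : ℤ) - T1 r))) c x
          = marg (fun r => (M r : ℤ)) c x
            - marg (fun r => ((T0 + Finsupp.single (gz K N) k) r : ℕ)) c x
            + a * (marg (fun r => (T0 r : ℤ)) c x - marg (fun r => (T1 r : ℤ)) c x) := by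
        unfold marg
        rw [← Finset.sum_sub_distrib, ← Finset.sum_sub_distrib, Finset.mul_sum,
          ← Finset.sum_add_distrib]
        refine Finset.sum_congr rfl fun r _ => ?_
        split_ifs
        · simp only [Finsupp.add_apply]; push_cast; ring
        · ring
      rw [e1, marg_cast, marg_cast, marg_cast, marg_cast, hM, hT1, ← lin_TT K N, ← hT0]
      ring
    · rw [← hr0, hT00, hT10, Finsupp.single_apply, if_neg hne, ha]
      push_cast; ring
  have h1 := hz rp
  rw [hp0, hp1, Finsupp.single_apply, if_neg hpg] at h1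
  push_cast at h1
  have ha0 : 0 ≤ a := by
    have : (0 : ℤ) ≤ M rp := Int.natCast_nonneg _
    linarith
  have ha1 : a ≤ 1 := by
    have : (0 : ℤ) ≤ M r0 := Int.natCast_nonneg _
    linarith
  have ha2 : a = 0 ∨ a = 1 := by omega
  rcases ha2 with h | h
  · left
    ext r
    have h2 := hz r
    rw [h] at h2
    rw [Finsupp.add_apply]
    have h3 : (M r : ℤ) = T0 r + (Finsupp.single (gz K N) k r : ℕ) := by linarith
    exact_mod_cast h3
  · right
    ext r
    have h2 := hz r
    rw [h] at h2
    rw [Finsupp.add_apply]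
    have h3 : (M r : ℤ) = T1 r + (Finsupp.single (gz K N) k r : ℕ) := by linarith
    exact_mod_cast h3

theorem TT_ne {K N : ℕ} (hK : 1 ≤ K) (hG : Good K N) : TT K N false ≠ TT K N true := by
  intro h
  have h1 := TT_top hK hG false 0
  rcases disj_TT hK hG (row K N (gd true 0 false)) with h2 | h2
  · rw [h1] at h2; exact one_ne_zero h2
  · rw [← h, h1] at h2; exact one_ne_zero h2

end Pool.Agent.H929R3
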