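import Pool.Agent.H929R3.Emb

set_option autoImplicit false

/-!
# The kernel lemma
-/

namespace Pool.Agent.H929R3

open Ix Vx

/-- Coordinates of a row given by its first two entries. -/
def co {G : Type} [AddCommGroup G] (c : Fin 3) (r : G × G) : G :=
  if c = 0 then r.1 else if c = 1 then r.2 else - r.1 - r.2

/-- The row of an index. -/
def row (K N : ℕ) (ix : Ix) : GG N × GG N :=
  (psi K N 0 (bd K 0 ix), psi K N 1 (bd K 1 ix))

theorem co_row (K N : ℕ) (c : Fin 3) (ix : Ix) :
    co c (row K N ix) = psi K N c (bd K c ix) := by
  fin_cases c
  · rfl
  · rfl
  · show - psi K N 0 (bd K 0 ix) - psi K N 1 (bd K 1 ix) = psi K N 2 (bd K 2 ix)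
    have := psi_sum K N ix
    rw [← sub_eq_zero]
    rw [← neg_eq_zero] at this
    rw [← this]
    abel

theorem co_ext {G : Type} [AddCommGroup G] {r r' : G × G} (h : ∀ c, co c r = co c r') :
    r = r' :=
  Prod.ext (h 0) (h 1)

theorem row_inj {K N : ℕ} (hK : 1 ≤ K) (hG : Good K N) {ix ix' : Ix} (h : Ok K ix)
    (h' : Ok K ix') (he : row K N ix = row K N ix') : ix = ix' := by
  apply bd_inj hK
  intro c
  apply psi_inj hG c (OkV_bd c ix h) (OkV_bd c ix' h')
  rw [← co_row, ← co_row, he]

/-- Marginals. -/
def marg {G : Type} [AddCommGroup G] [Fintype G] [DecidableEq G] (n : G × G → ℤ) (c : Fin 3)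
    (x : G) : ℤ :=
  ∑ r : G × G, if co c r = x then n r else 0

theorem prop_zero {K N : ℕ} [NeZero N] (hG : Good K N) (n : GG N × GG N → ℤ)
    (hs : ∀ r, n r ≠ 0 → ∃ ix, Ok K ix ∧ r = row K N ix) (hm : ∀ c x, marg n c x = 0)
    (c : Fin 3) (ix0 : Ix) (h0 : Ok K ix0)
    (h : ∀ ix, Ok K ix → bd K c ix = bd K c ix0 → ix ≠ ix0 → n (row K N ix) = 0) :
    n (row K N ix0) = 0 := by
  classical
  have h1 := hm c (co c (row K N ix0))
  unfold marg at h1
  rw [Finset.sum_eq_single (row K N ix0)] at h1
  · simpa using h1
  · intro r _ hr
    split_ifs with h2
    · by_contra hn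
      obtain ⟨ix, hok, rfl⟩ := hs r hn
      apply hn
      apply h ix hok
      · apply psi_inj hG c (OkV_bd c ix hok) (OkV_bd c ix0 h0)
        rw [← co_row, ← co_row, h2]
      · intro h3; exact hr (by rw [h3])
    · rfl
  · intro h2; exact absurd (Finset.mem_univ _) h2

/-- The kernel lemma. -/
theorem ker_zero {K N : ℕ} [NeZero N] (hK : 1 ≤ K) (hG : Good K N) (n : GG N × GG N → ℤ)
    (hs : ∀ r, n r ≠ 0 → ∃ ix, Ok K ix ∧ r = row K N ix) (hm : ∀ c x, marg n c x = 0)
    (h000 : n (row K N (gd true 0 false)) = 0) : ∀ r, n r = 0 := by
  have PZ := prop_zero hG n hs hm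
  have hchV : ∀ (c c' : Fin 3) (j : ℕ) (s e t : Bool), bd K c (ch c' j s) ≠ g e t := by
    intro c c' j s e t h
    by_cases h2 : c = c'
    · subst h2
      rw [bd_ch_same] at h
      injection h
    · rw [bd_ch_ne K h2] at h
      injection h
  -- a gadget step
  have hgd : ∀ (c : Fin 3) (i : Fin 3) (s : Bool), c ≠ i →
      (∀ (i' : Fin 3) (s' : Bool), c ≠ i' → gv i' c s' = gv i c s → (i', s') ≠ (i, s) →
        n (row K N (gd true i' s')) = 0) → n (row K N (gd true i s)) = 0 := by
    intro c i s hci h
    apply PZ c (gd true i s) trivial
    intro ix hok hbd hne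
    rw [bd_gd_ne K true hci] at hbd
    cases ix with
    | ch c' j s' => exact absurd hbd (hchV _ _ _ _ _ _)
    | gd e i' s' =>
      by_cases h2 : c = i'
      · subst h2
        rw [bd_gd_same] at hbd
        injection hbd
      · rw [bd_gd_ne K e h2] at hbd
        injection hbd with h3 h4
        subst h3
        apply h i' s' h2 h4
        intro h5
        apply hne
        injection h5 with h6 h7
        rw [h6, h7]
  have g001 : n (row K N (gd true 0 true)) = 0 := by
    apply hgd 1 0 true (by decide)
    intro i' s' h1 h2 h3
    fin_cases i' <;> cases s' <;>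
      first
        | exact h000
        | exact absurd rfl h3
        | exact absurd rfl h1
        | exact absurd h2 (by decide)
  have g010 : n (row K N (gd true 1 false)) = 0 := by
    apply hgd 2 1 false (by decide)
    intro i' s' h1 h2 h3
    fin_cases i' <;> cases s' <;>
      first
        | exact h000
        | exact g001
        | exact absurd rfl h3
        | exact absurd rfl h1
        | exact absurd h2 (by decide)
  have g021 : n (row K N (gd true 2 true)) = 0 := by
    apply hgd 0 2 true (by decide)
    intro i' s' h1 h2 h3
    fin_cases i' <;> cases s' <;>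
      first
        | exact h000
        | exact g001
        | exact g010
        | exact absurd rfl h3
        | exact absurd rfl h1
        | exact absurd h2 (by decide)
  have g020 : n (row K N (gd true 2 false)) = 0 := by
    apply hgd 1 2 false (by decide)
    intro i' s' h1 h2 h3
    fin_cases i' <;> cases s' <;>
      first
        | exact h000
        | exact g001
        | exact g010
        | exact g021
        | exact absurd rfl h3
        | exact absurd rfl h1
        | exact absurd h2 (by decide)
  have g011 : n (row K N (gd true 1 true)) = 0 := by
    apply hgd 0 1 true (by decide)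
    intro i' s' h1 h2 h3
    fin_cases i' <;> cases s' <;>
      first
        | exact h000
        | exact g001
        | exact g010
        | exact g021
        | exact g020
        | exact absurd rfl h3
        | exact absurd rfl h1
        | exact absurd h2 (by decide)
  have gtop : ∀ i s, n (row K N (gd true i s)) = 0 := by
    intro i s
    fin_cases i <;> cases s <;> assumption
  have hendt : endp K true = K := rfl
  have hendf : endp K false = 0 := rfl
  -- the chain
  have hchain : ∀ m, m < K → ∀ c s, n (row K N (ch c (K - 1 - m) s)) = 0 := by
    intro m
    induction m with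
    | zero =>
      intro hm0 c s
      have hok : Ok K (ch c (K - 1 - 0) s) := by show K - 1 - 0 < K; omega
      apply PZ c _ hok
      intro ix hix hbd hne
      rw [bd_ch_same] at hbd
      cases ix with
      | ch c' j' s' =>
        exfalso
        have hj' : j' < K := hix
        by_cases h2 : c = c'
        · subst h2
          rw [bd_ch_same] at hbd
          injection hbd with h3 h4
          apply hne
          rw [h4]
          congr 1
          omega
        · rw [bd_ch_ne K h2] at hbd
          injection hbd with h3 h4
          omega
      | gd e i s' =>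
        cases e
        · exfalso
          by_cases h2 : c = i
          · subst h2
            rw [bd_gd_same, hendf] at hbd
            injection hbd with h3 h4
            omega
          · rw [bd_gd_ne K _ h2] at hbd
            injection hbd
        · exact gtop i s'
    | succ m ih =>
      intro hm1 c s
      have hok : Ok K (ch c (K - 1 - (m + 1)) s) := by show K - 1 - (m + 1) < K; omega
      apply PZ c _ hok
      intro ix hix hbd hne
      rw [bd_ch_same] at hbd
      cases ix with
      | ch c' j' s' =>
        have hj' : j' < K := hix
        by_cases h2 : c = c'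
        · exfalso
          subst h2
          rw [bd_ch_same] at hbd
          injection hbd with h3 h4
          apply hne
          rw [h4]
          congr 1
          omega
        · rw [bd_ch_ne K h2] at hbd
          injection hbd with h3 h4
          have h5 : j' = K - 1 - m := by omega
          rw [h5]
          exact ih (by omega) c' s'
      | gd e i s' =>
        cases e
        · exfalso
          by_cases h2 : c = i
          · subst h2
            rw [bd_gd_same, hendf] at hbd
            injection hbd with h3 h4
            omega
          · rw [bd_gd_ne K _ h2] at hbd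
            injection hbd
        · exact gtop i s'
  have hch : ∀ c j s, j < K → n (row K N (ch c j s)) = 0 := by
    intro c j s hj
    have h1 := hchain (K - 1 - j) (by omega) c s
    have h2 : K - 1 - (K - 1 - j) = j := by omega
    rwa [h2] at h1
  have gbot : ∀ i s, n (row K N (gd false i s)) = 0 := by
    intro i s
    apply PZ i (gd false i s) trivial
    intro ix hix hbd hne
    rw [bd_gd_same, hendf] at hbd
    cases ix with
    | ch c' j' s' => exact hch c' j' s' hix
    | gd e i' s' =>
      cases e
      · exfalso
        by_cases h2 : i = i'
        · subst h2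
          rw [bd_gd_same] at hbd
          injection hbd with h3 h4
          exact hne (by rw [h4])
        · rw [bd_gd_ne K _ h2] at hbd
          injection hbd
      · exact gtop i' s'
  intro r
  by_contra hr
  obtain ⟨ix, hok, rfl⟩ := hs r hr
  apply hr
  cases ix with
  | ch c j s => exact hch c j s hok
  | gd e i s =>
    cases e
    · exact gbot i s
    · exact gtop i s

end Pool.Agent.H929R3
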