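import Pool.Agent.H929R3.Fib

set_option autoImplicit false

/-!
# Generators of exponential degree for tripods over groups of polynomial size
-/

namespace Pool.Agent.H929R3

open MvPolynomial

theorem exists_good (K : ℕ) (hK : 1 ≤ K) :
    ∃ N : ℕ, 0 < N ∧ N ≤ 2 * ((K + 2) * (K + 1) ^ 3) ∧ Good K N := by
  obtain ⟨N, hN0, hN, h⟩ := exists_modulus K hK
  refine ⟨N, hN0, hN, ?_⟩
  intro i j l hi hj hl hz
  apply h i j l hi hj hl
  rw [← ZMod.intCast_zmod_eq_zero_iff_dvd]
  unfold zz
  push_cast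
  exact hz

theorem card_GG (N : ℕ) [NeZero N] : Fintype.card (GG N) = N * 21 := by
  rw [Fintype.card_prod, Fintype.card_prod, ZMod.card, ZMod.card, ZMod.card]

/-- The core statement for a general index set of the flows. -/
theorem core {K N : ℕ} [NeZero N] (hK : 1 ≤ K) (hG : Good K N) {σ : Type}
    (e : σ ≃ GG N × GG N) :
    ∃ (T0 T1 : σ →₀ ℕ) (g0 : σ), (∀ g, T0 g = 0 ∨ T1 g = 0) ∧ T0 ≠ T1 ∧
      T0.degree = 6 * 2 ^ K ∧ T1.degree = 6 * 2 ^ K ∧
      lin (fun s => E0 (e s)) T0 = lin (fun s => E0 (e s)) T1 ∧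
      ∀ (k : ℕ) (M : σ →₀ ℕ),
        lin (fun s => E0 (e s)) M = lin (fun s => E0 (e s)) (T0 + Finsupp.single g0 k) →
          M = T0 + Finsupp.single g0 k ∨ M = T1 + Finsupp.single g0 k := by
  classical
  have hlin : ∀ M : σ →₀ ℕ, lin (fun s => E0 (e s)) M =
      lin E0 (Finsupp.equivMapDomain e M) := by
    intro M
    rw [lin, lin, Finsupp.linearCombination_equivMapDomain]
    rfl
  have hback : ∀ T : (GG N × GG N) →₀ ℕ,
      Finsupp.equivMapDomain e (Finsupp.equivMapDomain e.symm T) = T := by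
    intro T; ext x; simp
  have hdeg : ∀ T : (GG N × GG N) →₀ ℕ,
      (Finsupp.equivMapDomain e.symm T).degree = T.degree := by
    intro T
    rw [Finsupp.degree_apply, Finsupp.degree_apply]
    exact Finsupp.sum_equivMapDomain e.symm T (fun _ n => n)
  have hadd : ∀ (T : (GG N × GG N) →₀ ℕ) (k : ℕ),
      Finsupp.equivMapDomain e (Finsupp.equivMapDomain e.symm T +
        Finsupp.single (e.symm (gz K N)) k) = T + Finsupp.single (gz K N) k := by
    intro T k
    ext x
    simp [Finsupp.single_apply, Equiv.symm_apply_eq, Equiv.apply_symm_apply]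
  have hinj : ∀ M M' : σ →₀ ℕ, Finsupp.equivMapDomain e M = Finsupp.equivMapDomain e M' →
      M = M' := by
    intro M M' h
    ext x
    have := DFunLike.congr_fun h (e x)
    simpa using this
  refine ⟨Finsupp.equivMapDomain e.symm (TT K N false), Finsupp.equivMapDomain e.symm
    (TT K N true), e.symm (gz K N), ?_, ?_, ?_, ?_, ?_, ?_⟩
  · intro g
    have := disj_TT hK hG (e g)
    simpa using this
  · intro h
    have h1 := congrArg (Finsupp.equivMapDomain e) h
    rw [hback, hback] at h1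
    exact TT_ne hK hG h1
  · rw [hdeg, degree_TT]
  · rw [hdeg, degree_TT]
  · rw [hlin, hlin, hback, hback, lin_TT]
  · intro k M hM
    rw [hlin, hlin, hadd] at hM
    rcases fibre hK hG k _ hM with h | h
    · left
      apply hinj
      rw [h, hadd]
    · right
      apply hinj
      rw [h, hadd]

/-- polynomial growth versus exponential growth -/
theorem poly_lt_exp (R : Polynomial ℕ) : ∃ K : ℕ, 1 ≤ K ∧ R.eval K < 6 * 2 ^ K := by
  have h1 : ∀ K : ℕ, 1 ≤ K → R.eval K ≤ (∑ i ∈ Finset.range (R.natDegree + 1), R.coeff i) *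
      K ^ R.natDegree := by
    intro K hK
    rw [Polynomial.eval_eq_sum_range, Finset.sum_mul]
    refine Finset.sum_le_sum fun i hi => ?_
    refine Nat.mul_le_mul_left _ ?_
    exact Nat.pow_le_pow_right hK (Nat.lt_succ_iff.mp (Finset.mem_range.mp hi))
  set C := ∑ i ∈ Finset.range (R.natDegree + 1), R.coeff i
  have h2 := tendsto_pow_const_div_const_pow_of_one_lt R.natDegree (show (1 : ℝ) < 2 by norm_num)
  have h3 : ∀ᶠ K : ℕ in Filter.atTop, ((K : ℝ) ^ R.natDegree / 2 ^ K) < 1 / (C + 1) :=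
    h2.eventually_lt_const (by positivity)
  obtain ⟨K, hK1, hK2⟩ := (h3.and (Filter.eventually_ge_atTop 1)).exists
  refine ⟨K, hK2, ?_⟩
  have h4 := h1 K hK2
  rw [div_lt_div_iff₀ (by positivity) (by positivity), one_mul] at hK1
  have h5 : K ^ R.natDegree * (C + 1) < 2 ^ K := by exact_mod_cast hK1
  calc R.eval K ≤ C * K ^ R.natDegree := h4
    _ ≤ K ^ R.natDegree * (C + 1) := by
        rw [mul_comm]; exact Nat.mul_le_mul_left _ (Nat.le_succ C)
    _ < 2 ^ K := h5
    _ ≤ 6 * 2 ^ K := by omega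

theorem eval_mono (Q : Polynomial ℕ) {a b : ℕ} (h : a ≤ b) : Q.eval a ≤ Q.eval b := by
  rw [Polynomial.eval_eq_sum_range, Polynomial.eval_eq_sum_range]
  exact Finset.sum_le_sum fun i _ => Nat.mul_le_mul_left _ (Nat.pow_le_pow_left h i)

/-- For every polynomial there are parameters for which the degree `6 * 2 ^ K` beats the value
of the polynomial at the group order. -/
theorem exists_beating (Q : Polynomial ℕ) :
    ∃ K N : ℕ, 1 ≤ K ∧ 0 < N ∧ Good K N ∧ Q.eval (N * 21) < 6 * 2 ^ K := by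
  obtain ⟨K, hK, hlt⟩ := poly_lt_exp (Q.comp (42 * ((Polynomial.X + 2) * (Polynomial.X + 1) ^ 3)))
  obtain ⟨N, hN0, hN, hG⟩ := exists_good K hK
  refine ⟨K, N, hK, hN0, hG, ?_⟩
  rw [Polynomial.eval_comp] at hlt
  refine lt_of_le_of_lt (eval_mono Q ?_) hlt
  have h1 : Polynomial.eval K (42 * ((Polynomial.X + 2) * (Polynomial.X + 1) ^ 3) :
      Polynomial ℕ) = 42 * ((K + 2) * (K + 1) ^ 3) := by
    simp
  rw [h1]
  omega

end Pool.Agent.H929R3
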