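import Mathlib

set_option autoImplicit false

/-!
# A modulus without unexpected relations among three powers of -2
-/

namespace Pool.Agent.H929R3

/-- the trivial relations -/
def Triv (i j l : ℕ) : Prop :=
  ∃ k, (i = k + 1 ∧ j = k ∧ l = k) ∨ (i = k ∧ j = k + 1 ∧ l = k) ∨ (i = k ∧ j = k ∧ l = k + 1)

/-- The integers to be avoided. -/
def zz (i j l : ℕ) : ℤ := (-2) ^ i + (-2) ^ j + (-2) ^ l

theorem zz_aux (a b : ℕ) (h : (1 : ℤ) + (-2) ^ a + (-2) ^ b = 0) :
    (a = 0 ∧ b = 1) ∨ (a = 1 ∧ b = 0) := by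
  rcases Nat.eq_zero_or_pos a with ha | ha
  · left
    refine ⟨ha, ?_⟩
    subst ha
    have h1 : ((-2 : ℤ)) ^ b = (-2) ^ 1 := by
      rw [pow_zero] at h
      linarith
    have h2 := congrArg Int.natAbs h1
    rw [Int.natAbs_pow, Int.natAbs_pow] at h2
    exact Nat.pow_right_injective (le_refl 2) h2
  · rcases Nat.eq_zero_or_pos b with hb | hb
    · right
      refine ⟨?_, hb⟩
      subst hb
      have h1 : ((-2 : ℤ)) ^ a = (-2) ^ 1 := by
        rw [pow_zero] at h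
        linarith
      have h2 := congrArg Int.natAbs h1
      rw [Int.natAbs_pow, Int.natAbs_pow] at h2
      exact Nat.pow_right_injective (le_refl 2) h2
    · exfalso
      obtain ⟨a', rfl⟩ := Nat.exists_eq_add_of_le ha
      obtain ⟨b', rfl⟩ := Nat.exists_eq_add_of_le hb
      rw [pow_add, pow_add] at h
      omega

theorem zz_eq_zero {i j l : ℕ} (h : zz i j l = 0) : Triv i j l := by
  unfold zz at h
  have hp : ∀ n : ℕ, ((-2 : ℤ)) ^ n ≠ 0 := fun n => pow_ne_zero n (by norm_num)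
  rcases le_total i j with hij | hij
  · rcases le_total i l with hil | hil
    · obtain ⟨a, rfl⟩ := Nat.exists_eq_add_of_le hij
      obtain ⟨b, rfl⟩ := Nat.exists_eq_add_of_le hil
      have h1 : ((-2 : ℤ)) ^ i * (1 + (-2) ^ a + (-2) ^ b) = 0 := by
        rw [← h, pow_add, pow_add]; ring
      rcases zz_aux a b ((mul_eq_zero.mp h1).resolve_left (hp i)) with ⟨rfl, rfl⟩ | ⟨rfl, rfl⟩
      · exact ⟨i, by omega⟩
      · exact ⟨i, by omega⟩
    · obtain ⟨a, rfl⟩ := Nat.exists_eq_add_of_le hil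
      obtain ⟨b, rfl⟩ := Nat.exists_eq_add_of_le (hil.trans hij)
      have h1 : ((-2 : ℤ)) ^ l * (1 + (-2) ^ a + (-2) ^ b) = 0 := by
        rw [← h, pow_add, pow_add]; ring
      rcases zz_aux a b ((mul_eq_zero.mp h1).resolve_left (hp l)) with ⟨rfl, rfl⟩ | ⟨rfl, rfl⟩
      · exact ⟨l, by omega⟩
      · exact ⟨l, by omega⟩
  · rcases le_total j l with hjl | hjl
    · obtain ⟨a, rfl⟩ := Nat.exists_eq_add_of_le hij
      obtain ⟨b, rfl⟩ := Nat.exists_eq_add_of_le hjl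
      have h1 : ((-2 : ℤ)) ^ j * (1 + (-2) ^ a + (-2) ^ b) = 0 := by
        rw [← h, pow_add, pow_add]; ring
      rcases zz_aux a b ((mul_eq_zero.mp h1).resolve_left (hp j)) with ⟨rfl, rfl⟩ | ⟨rfl, rfl⟩
      · exact ⟨j, by omega⟩
      · exact ⟨j, by omega⟩
    · obtain ⟨a, rfl⟩ := Nat.exists_eq_add_of_le hjl
      obtain ⟨b, rfl⟩ := Nat.exists_eq_add_of_le (hjl.trans hij)
      have h1 : ((-2 : ℤ)) ^ l * (1 + (-2) ^ a + (-2) ^ b) = 0 := by
        rw [← h, pow_add, pow_add]; ring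
      rcases zz_aux a b ((mul_eq_zero.mp h1).resolve_left (hp l)) with ⟨rfl, rfl⟩ | ⟨rfl, rfl⟩
      · exact ⟨l, by omega⟩
      · exact ⟨l, by omega⟩

theorem zz_le {K i j l : ℕ} (hi : i ≤ K) (hj : j ≤ K) (hl : l ≤ K) :
    (zz i j l).natAbs ≤ 2 ^ (K + 2) := by
  unfold zz
  have h : ∀ n : ℕ, n ≤ K → (((-2 : ℤ)) ^ n).natAbs ≤ 2 ^ K := by
    intro n hn
    rw [Int.natAbs_pow]
    exact Nat.pow_le_pow_right (by norm_num) hn
  have h1 := h i hi
  have h2 := h j hj
  have h3 := h l hl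
  have h4 := Int.natAbs_add_le ((-2 : ℤ) ^ i + (-2) ^ j) ((-2) ^ l)
  have h5 := Int.natAbs_add_le ((-2 : ℤ) ^ i) ((-2) ^ j)
  have h6 : 2 ^ (K + 2) = 4 * 2 ^ K := by rw [pow_add]; ring
  omega

/-- Index set of triples. -/
def trip (K : ℕ) : Finset (ℕ × ℕ × ℕ) :=
  Finset.range (K + 1) ×ˢ Finset.range (K + 1) ×ˢ Finset.range (K + 1)

/-- Factor -/
def fac (t : ℕ × ℕ × ℕ) : ℕ :=
  if zz t.1 t.2.1 t.2.2 = 0 then 1 else (zz t.1 t.2.1 t.2.2).natAbs

theorem fac_pos (t : ℕ × ℕ × ℕ) : 0 < fac t := by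
  unfold fac
  split
  · exact one_pos
  · rename_i h
    exact Int.natAbs_pos.mpr h

theorem exists_modulus (K : ℕ) (hK : 1 ≤ K) :
    ∃ N : ℕ, 0 < N ∧ N ≤ 2 * ((K + 2) * (K + 1) ^ 3) ∧
      ∀ i j l : ℕ, i ≤ K → j ≤ K → l ≤ K → (N : ℤ) ∣ zz i j l → Triv i j l := by
  classical
  by_contra hcon
  push Not at hcon
  set n := (K + 2) * (K + 1) ^ 3 with hn
  have hn3 : 3 ≤ n := by
    have h1 : 1 ≤ (K + 1) ^ 3 := Nat.one_le_pow _ _ (Nat.succ_pos K)
    calc 3 ≤ K + 2 := by omega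
      _ = (K + 2) * 1 := by ring
      _ ≤ (K + 2) * (K + 1) ^ 3 := Nat.mul_le_mul_left _ h1
  set P := ∏ t ∈ trip K, fac t with hP
  have hPpos : 0 < P := Finset.prod_pos fun t _ => fac_pos t
  have hPle : P ≤ 2 ^ n := by
    have h1 : P ≤ ∏ t ∈ trip K, 2 ^ (K + 2) := by
      refine Finset.prod_le_prod' fun t ht => ?_
      simp only [trip, Finset.mem_product, Finset.mem_range] at ht
      unfold fac
      split
      · exact Nat.one_le_pow _ _ (by norm_num)
      · exact zz_le (by omega) (by omega) (by omega)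
    refine h1.trans ?_
    rw [Finset.prod_const, ← pow_mul]
    refine Nat.pow_le_pow_right (by norm_num) ?_
    rw [hn]
    refine Nat.mul_le_mul_left _ ?_
    simp only [trip, Finset.card_product, Finset.card_range]
    apply le_of_eq; ring
  have hdiv : ∀ N : ℕ, 0 < N → N ≤ 2 * n → N ∣ P := by
    intro N hN0 hN
    obtain ⟨i, j, l, hi, hj, hl, hd, ht⟩ := hcon N hN0 hN
    have hz : zz i j l ≠ 0 := fun h => ht (zz_eq_zero h)
    have h1 : fac (i, j, l) = (zz i j l).natAbs := by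
      unfold fac
      rw [if_neg hz]
    have h2 : N ∣ fac (i, j, l) := by
      rw [h1]
      exact Int.natCast_dvd.mp hd
    refine h2.trans (Finset.dvd_prod_of_mem fac ?_)
    simp only [trip, Finset.mem_product, Finset.mem_range]
    omega
  have hcb : Nat.centralBinom n ∣ P := by
    refine (Nat.factorization_prime_le_iff_dvd (Nat.centralBinom_ne_zero n) hPpos.ne').mp ?_
    intro p hp
    rw [← hp.pow_dvd_iff_le_factorization hPpos.ne']
    refine hdiv _ (pow_pos hp.pos _) ?_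
    rw [Nat.centralBinom]
    exact Nat.pow_factorization_choose_le (by omega)
  have h1 : Nat.centralBinom n ≤ 2 ^ n := (Nat.le_of_dvd hPpos hcb).trans hPle
  have h2 := Nat.four_pow_le_two_mul_self_mul_centralBinom n (by omega)
  have h3 : 4 ^ n ≤ 2 * n * 2 ^ n := h2.trans (Nat.mul_le_mul_left _ h1)
  have h4 : (4 : ℕ) ^ n = 2 ^ n * 2 ^ n := by
    rw [← mul_pow]; norm_num
  rw [h4] at h3
  have h5 : 2 ^ n ≤ 2 * n := Nat.le_of_mul_le_mul_right h3 (by positivity)
  have h6 : ∀ m : ℕ, 3 ≤ m → 2 * m < 2 ^ m := by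
    intro m hm
    induction m, hm using Nat.le_induction with
    | base => norm_num
    | succ m hm ih => rw [pow_succ]; omega
  exact absurd h5 (not_le.mpr (h6 n hn3))

end Pool.Agent.H929R3
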